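import Pool.Agent.helper80.LSZ.Had

set_option linter.all false
set_option autoImplicit false

/-!
# The inequality of Liang, So and Zhang up to an exponential factor, and for small ranks
(MP_2dd521_co)
-/

namespace Pool.Agent.helper80.LSZ

open Finset
open scoped ComplexConjugate ComplexOrder

/-! ### factorials -/

theorem mult_le (n : ℕ) : ∀ m : ℕ, (n * m).factorial ≤ n.factorial ^ m * m ^ (n * m) := by
  intro m
  induction m with
  | zero => simp
  | succ m ih =>
    have h1 : (n * m + n).factorial = (n * m + n).choose n * (n * m).factorial * n.factorial := by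
      exact (Nat.add_choose_mul_factorial_mul_factorial (n * m) n).symm
    have h2 : (n * m + n).choose n * m ^ (n * m) ≤ (m + 1) ^ (n * m + n) := by
      rw [add_pow]
      have h3 := Finset.single_le_sum (f := fun k => m ^ k * 1 ^ (n * m + n - k) *
        (n * m + n).choose k) (s := Finset.range (n * m + n + 1)) (fun _ _ => Nat.zero_le _)
        (Finset.mem_range.2 (by omega : n * m < n * m + n + 1))
      simp only [one_pow, mul_one] at h3 ⊢
      refine le_trans (le_of_eq ?_) h3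
      rw [mul_comm, Nat.choose_symm_add]
    have e : n * (m + 1) = n * m + n := by ring
    rw [e, h1]
    calc (n * m + n).choose n * (n * m).factorial * n.factorial
        ≤ (n * m + n).choose n * (n.factorial ^ m * m ^ (n * m)) * n.factorial :=
          Nat.mul_le_mul_right _ (Nat.mul_le_mul_left _ ih)
      _ = n.factorial ^ (m + 1) * ((n * m + n).choose n * m ^ (n * m)) := by
          rw [pow_succ]; ring
      _ ≤ _ := Nat.mul_le_mul_left _ h2

theorem pow_le_exp (m : ℕ) : (m : ℝ) ^ m ≤ Real.exp m * m.factorial := by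
  have h := Real.pow_div_factorial_le_exp (m : ℝ) (Nat.cast_nonneg m) m
  have hf : (0 : ℝ) < m.factorial := by exact_mod_cast Nat.factorial_pos m
  rwa [div_le_iff₀ hf] at h

theorem fac_le (n m : ℕ) : ((n * m).factorial : ℝ) ≤
    Real.exp 1 ^ (n * m) * ((n.factorial : ℝ) ^ m * (m.factorial : ℝ) ^ n) := by
  have h1 : ((n * m).factorial : ℝ) ≤ (n.factorial : ℝ) ^ m * (m : ℝ) ^ (n * m) := by
    exact_mod_cast mult_le n m
  have h2 : (m : ℝ) ^ (n * m) ≤ Real.exp 1 ^ (n * m) * (m.factorial : ℝ) ^ n := by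
    calc (m : ℝ) ^ (n * m) = ((m : ℝ) ^ m) ^ n := by rw [← pow_mul, mul_comm]
      _ ≤ (Real.exp m * m.factorial) ^ n :=
          pow_le_pow_left₀ (by positivity) (pow_le_exp m) n
      _ = _ := by
          rw [mul_pow, ← Real.exp_nat_mul, ← Real.exp_nat_mul]
          congr 2
          push_cast
          ring
  calc _ ≤ (n.factorial : ℝ) ^ m * (m : ℝ) ^ (n * m) := h1
    _ ≤ (n.factorial : ℝ) ^ m * (Real.exp 1 ^ (n * m) * (m.factorial : ℝ) ^ n) :=
        mul_le_mul_of_nonneg_left h2 (by positivity)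
    _ = _ := by ring

/-! ### the permanent of a positive semidefinite matrix -/

theorem per_nonneg {S : Type*} [Fintype S] [DecidableEq S] (P : Matrix S S ℂ)
    (hP : P.PosSemidef) : 0 ≤ P.permanent := by
  have h0 := (MP_psd P hP).dotProduct_mulVec_nonneg (fun _ => 1)
  have e : star (fun _ : Equiv.Perm S => (1 : ℂ)) ⬝ᵥ (MP P).mulVec (fun _ => 1) =
      (((Fintype.card (Equiv.Perm S) : ℕ) : ℝ) : ℂ) * P.permanent := by
    simp only [dotProduct, Matrix.mulVec, Pi.star_apply, star_one, one_mul, mul_one, MP_row,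
      Finset.sum_const, Finset.card_univ, nsmul_eq_mul]
    norm_cast
  rw [e] at h0
  have hc : (0 : ℝ) < ((Fintype.card (Equiv.Perm S) : ℕ) : ℝ) := by
    exact_mod_cast Fintype.card_pos
  rw [Complex.nonneg_iff] at h0 ⊢
  rw [Complex.re_ofReal_mul, Complex.im_ofReal_mul] at h0
  refine ⟨?_, ?_⟩
  · exact nonneg_of_mul_nonneg_right h0.1 hc
  · have := h0.2.symm
    rcases mul_eq_zero.1 this with h | h
    · exact absurd h hc.ne'
    · exact h.symm

theorem per_real {S : Type*} [Fintype S] [DecidableEq S] (P : Matrix S S ℂ)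
    (hP : P.PosSemidef) : ∃ x : ℝ, 0 ≤ x ∧ P.permanent = (x : ℂ) := by
  have h := per_nonneg P hP
  rw [Complex.nonneg_iff] at h
  exact ⟨P.permanent.re, h.1, Complex.ext rfl (by simp [← h.2])⟩

theorem kron1_psd {m : ℕ} (B : Matrix (Fin m) (Fin m) ℂ) (hB : B.PosSemidef) (k : ℕ) :
    (kron1 k B).PosSemidef := by
  have h := Matrix.posSemidef_conjTranspose_mul_self
    (Matrix.of (fun (_ : Fin 1) (_ : Fin k) => (1 : ℂ)))
  have h1 : (Matrix.of (fun (_ _ : Fin k) => (1 : ℂ))).PosSemidef := by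
    convert h using 1
    ext i j
    simp [Matrix.mul_apply]
  exact h1.kronecker hB

/-! ### exponential loss -/

theorem lsz_exp {n m : ℕ} (A : Matrix (Fin n) (Fin n) ℂ) (B : Matrix (Fin m) (Fin m) ℂ)
    (hA : A.PosSemidef) (hB : B.PosSemidef) :
    4 ^ (n * m) * (A.permanent ^ m * B.permanent ^ n) ≤
      17 ^ (n * m) * (Matrix.kronecker A B).permanent := by
  have h1 := pate_all A hA m
  have h2 := pate_all B hB n
  have h3 := lsz_had A B hA hB
  obtain ⟨a, ha, ea⟩ := per_real A hA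
  obtain ⟨b, hb, eb⟩ := per_real B hB
  obtain ⟨x, hx, ex⟩ := per_real _ (hA.kronecker hB)
  obtain ⟨p, hp, ep⟩ := per_real _ (kron1_psd A hA m)
  obtain ⟨q, hq, eq⟩ := per_real _ (kron1_psd B hB n)
  have ex' : (Matrix.kronecker A B).permanent = (x : ℂ) := ex
  rw [ea, ep] at h1
  rw [eb, eq] at h2
  rw [ep, eq, ex'] at h3
  rw [ea, eb, ex']
  have h1' : (m.factorial : ℝ) ^ n * 4 ^ (n * (m - 2)) * a ^ m ≤ 5 ^ (n * (m - 2)) * p := by
    exact_mod_cast h1
  have h2' : (n.factorial : ℝ) ^ m * 4 ^ (m * (n - 2)) * b ^ n ≤ 5 ^ (m * (n - 2)) * q := by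
    exact_mod_cast h2
  have h3' : p * q ≤ ((n * m).factorial : ℝ) * x := by exact_mod_cast h3
  have conv : ∀ (f u v : ℝ) (k N : ℕ), 0 ≤ v → k ≤ N → f * 4 ^ k * u ≤ 5 ^ k * v →
      f * u ≤ (5 / 4) ^ N * v := by
    intro f u v k N hv hkN h
    have h4 : f * u ≤ (5 / 4) ^ k * v := by
      rw [div_pow, div_mul_eq_mul_div, le_div_iff₀ (by positivity)]
      linarith
    exact h4.trans (mul_le_mul_of_nonneg_right (pow_le_pow_right₀ (by norm_num) hkN) hv)
  have k1 := conv _ _ _ _ (n * m) hp (Nat.mul_le_mul_left n (Nat.sub_le m 2)) h1'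
  have k2 := conv _ _ _ _ (n * m) hq
    (by rw [mul_comm n m]; exact Nat.mul_le_mul_left m (Nat.sub_le n 2)) h2'
  have k3 := fac_le n m
  set F : ℝ := (n.factorial : ℝ) ^ m * (m.factorial : ℝ) ^ n with hF
  have hF0 : 0 < F := by
    have h4 : (0 : ℝ) < n.factorial := by exact_mod_cast Nat.factorial_pos n
    have h5 : (0 : ℝ) < m.factorial := by exact_mod_cast Nat.factorial_pos m
    positivity
  have k4 : F * (a ^ m * b ^ n) ≤ F * ((25 / 16 * Real.exp 1) ^ (n * m) * x) := by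
    calc F * (a ^ m * b ^ n) = ((m.factorial : ℝ) ^ n * a ^ m) *
          ((n.factorial : ℝ) ^ m * b ^ n) := by rw [hF]; ring
      _ ≤ ((5 / 4) ^ (n * m) * p) * ((5 / 4) ^ (n * m) * q) :=
          mul_le_mul k1 k2 (by positivity) (by positivity)
      _ = (25 / 16) ^ (n * m) * (p * q) := by
          rw [show (25 / 16 : ℝ) = 5 / 4 * (5 / 4) by norm_num, mul_pow]
          ring
      _ ≤ (25 / 16) ^ (n * m) * (((n * m).factorial : ℝ) * x) :=
          mul_le_mul_of_nonneg_left h3' (by positivity)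
      _ ≤ (25 / 16) ^ (n * m) * ((Real.exp 1 ^ (n * m) * F) * x) :=
          mul_le_mul_of_nonneg_left (mul_le_mul_of_nonneg_right k3 hx) (by positivity)
      _ = _ := by rw [mul_pow]; ring
  have k5 := le_of_mul_le_mul_left k4 hF0
  have k6 : (25 / 16 * Real.exp 1) ^ (n * m) ≤ (17 / 4 : ℝ) ^ (n * m) := by
    refine pow_le_pow_left₀ (by positivity) ?_ _
    have := Real.exp_one_lt_d9
    linarith
  have k7 : a ^ m * b ^ n ≤ (17 / 4 : ℝ) ^ (n * m) * x :=
    k5.trans (mul_le_mul_of_nonneg_right k6 hx)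
  have k8 : 4 ^ (n * m) * (a ^ m * b ^ n) ≤ 17 ^ (n * m) * x := by
    rw [div_pow, div_mul_eq_mul_div, le_div_iff₀ (by positivity)] at k7
    linarith
  exact_mod_cast k8

/-! ### small ranks -/

theorem asc_block (a j : ℕ) : (((a * j).ascFactorial a : ℕ) : ℝ) ≤ ((j + 1 / 2) * a) ^ a := by
  refine asc_le (a * j) a _ (by positivity) ?_
  push_cast
  nlinarith

theorem asc_six (a : ℕ) (ha : 0 < a) : (((a.ascFactorial (6 * a) : ℕ)) : ℝ) ≤
    (6 * a / Real.exp (1 / 2)) ^ (6 * a) := by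
  have e : a.ascFactorial (6 * a) = (a * 1).ascFactorial a * (a * 2).ascFactorial a *
      (a * 3).ascFactorial a * (a * 4).ascFactorial a * (a * 5).ascFactorial a *
      (a * 6).ascFactorial a := by
    have h : ∀ j : ℕ, a.ascFactorial (a * j) * (a * (j + 1)).ascFactorial a =
        a.ascFactorial (a * (j + 1)) := by
      intro j
      have := Nat.ascFactorial_mul_ascFactorial a (a * j) a
      rw [show a * (j + 1) = a + a * j by ring, show a + a * j = a * j + a by ring]
      rw [← this]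
      congr 2
      ring
    have h0 : a.ascFactorial (a * 0) = 1 := by simp
    have h1 := h 0
    have h2 := h 1
    have h3 := h 2
    have h4 := h 3
    have h5 := h 4
    have h6 := h 5
    simp only [zero_add, Nat.reduceAdd] at h1 h2 h3 h4 h5 h6
    rw [mul_comm 6 a, ← h6, ← h5, ← h4, ← h3, ← h2, ← h1, h0, one_mul]
  rw [e]
  push_cast
  have b1 := asc_block a 1
  have b2 := asc_block a 2
  have b3 := asc_block a 3
  have b4 := asc_block a 4
  have b5 := asc_block a 5
  have b6 := asc_block a 6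
  push_cast at b1 b2 b3 b4 b5 b6
  have ha' : (0 : ℝ) < a := by exact_mod_cast ha
  have hexp : Real.exp (1 / 2) ^ 6 ≤ 22 := by
    rw [← Real.exp_nat_mul]
    have h1 : Real.exp ((6 : ℕ) * (1 / 2)) = Real.exp 1 ^ 3 := by
      rw [← Real.exp_nat_mul]
      norm_num
    rw [h1]
    have h2 := Real.exp_one_lt_d9
    have h3 : (0 : ℝ) < Real.exp 1 := Real.exp_pos 1
    calc Real.exp 1 ^ 3 ≤ (2.7182818286 : ℝ) ^ 3 := pow_le_pow_left₀ h3.le h2.le 3
      _ ≤ 22 := by norm_num
  have hx : (0 : ℝ) < Real.exp (1 / 2) := Real.exp_pos _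
  calc _ ≤ ((1 + 1 / 2) * (a : ℝ)) ^ a * ((2 + 1 / 2) * (a : ℝ)) ^ a *
        ((3 + 1 / 2) * (a : ℝ)) ^ a * ((4 + 1 / 2) * (a : ℝ)) ^ a *
        ((5 + 1 / 2) * (a : ℝ)) ^ a * ((6 + 1 / 2) * (a : ℝ)) ^ a := by
        gcongr
    _ = (((1 + 1 / 2) * (2 + 1 / 2) * (3 + 1 / 2) * (4 + 1 / 2) * (5 + 1 / 2) * (6 + 1 / 2)) *
        (a : ℝ) ^ 6) ^ a := by
        simp only [← mul_pow]
        congr 1
        ring
    _ ≤ ((6 * a / Real.exp (1 / 2)) ^ 6) ^ a := by
        refine pow_le_pow_left₀ (by positivity) ?_ a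
        rw [div_pow, le_div_iff₀ (by positivity), mul_pow]
        have h4 : (0 : ℝ) ≤ (a : ℝ) ^ 6 := by positivity
        have h5 : ((1 + 1 / 2) * (2 + 1 / 2) * (3 + 1 / 2) * (4 + 1 / 2) * (5 + 1 / 2) *
            (6 + 1 / 2)) * Real.exp (1 / 2) ^ 6 ≤ (6 : ℝ) ^ 6 := by
          nlinarith
        nlinarith [mul_le_mul_of_nonneg_right h5 h4]
    _ = _ := by rw [← pow_mul]

theorem asc_low (a : ℕ) (ha : 0 < a) (n : ℕ) (hn : 6 * a ≤ n) :
    (((a.ascFactorial n : ℕ)) : ℝ) ≤ (n / Real.exp (1 / 2)) ^ n := by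
  induction n, hn using Nat.le_induction with
  | base =>
    have := asc_six a ha
    push_cast
    exact this
  | succ n hn ih =>
    have hx : (0 : ℝ) < Real.exp (1 / 2) := Real.exp_pos _
    have hx2 : Real.exp (1 / 2) ≤ 12 / 7 := by
      have h1 : Real.exp (1 / 2) * Real.exp (1 / 2) = Real.exp 1 := by
        rw [← Real.exp_add]; norm_num
      have h2 := Real.exp_one_lt_d9
      nlinarith
    have hn0 : (0 : ℝ) < n := by
      have : 0 < n := by omega
      exact_mod_cast this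
    have hna : 6 * (a : ℝ) ≤ n := by exact_mod_cast hn
    have hb : 2 * (n : ℝ) ^ n ≤ ((n : ℝ) + 1) ^ n := by
      have h1 := one_add_mul_le_pow (a := 1 / (n : ℝ)) (by
        have : 0 < 1 / (n : ℝ) := by positivity
        linarith) n
      have h2 : 1 + (n : ℝ) * (1 / n) = 2 := by field_simp; norm_num
      rw [h2] at h1
      have h3 : ((n : ℝ) + 1) ^ n = (1 + 1 / (n : ℝ)) ^ n * (n : ℝ) ^ n := by
        rw [← mul_pow]
        congr 1
        field_simp
      rw [h3]
      exact mul_le_mul_of_nonneg_right h1 (by positivity)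
    rw [Nat.ascFactorial_succ]
    push_cast
    calc ((a : ℝ) + n) * ((a.ascFactorial n : ℕ) : ℝ)
        ≤ ((a : ℝ) + n) * (n / Real.exp (1 / 2)) ^ n :=
          mul_le_mul_of_nonneg_left ih (by positivity)
      _ = (((a : ℝ) + n) * Real.exp (1 / 2)) * (n : ℝ) ^ n / Real.exp (1 / 2) ^ (n + 1) := by
          rw [div_pow, pow_succ]
          field_simp
      _ ≤ (2 * ((n : ℝ) + 1)) * (n : ℝ) ^ n / Real.exp (1 / 2) ^ (n + 1) := by
          refine div_le_div_of_nonneg_right ?_ (by positivity)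
          refine mul_le_mul_of_nonneg_right ?_ (by positivity)
          calc ((a : ℝ) + n) * Real.exp (1 / 2) ≤ ((a : ℝ) + n) * (12 / 7) :=
                mul_le_mul_of_nonneg_left hx2 (by positivity)
            _ ≤ 2 * ((n : ℝ) + 1) := by linarith
      _ = ((n : ℝ) + 1) * (2 * (n : ℝ) ^ n) / Real.exp (1 / 2) ^ (n + 1) := by ring
      _ ≤ ((n : ℝ) + 1) * ((n : ℝ) + 1) ^ n / Real.exp (1 / 2) ^ (n + 1) := by
          refine div_le_div_of_nonneg_right ?_ (by positivity)
          exact mul_le_mul_of_nonneg_left hb (by positivity)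
      _ = _ := by rw [div_pow, pow_succ ((n : ℝ) + 1)]; ring

/-- the product of the growth factors -/
noncomputable def cs1 (m : ℕ) : ℝ := ∏ k ∈ Finset.range m, (1 + k * Real.exp (1 / 2))

theorem log_half {x : ℝ} (hx : 1 ≤ x) : Real.log x ≤ (x - x⁻¹) / 2 := by
  have h0 : 0 < x := by linarith
  have h1 : 0 ≤ Real.log x := Real.log_nonneg hx
  have h2 := Real.self_le_sinh_iff.2 h1
  rwa [Real.sinh_eq, Real.exp_neg, Real.exp_log h0] at h2

theorem one_add_inv_pow (m : ℕ) (hm : 0 < m) :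
    ((m : ℝ) + 1) * (1 + 1 / (m : ℝ)) ^ m ≤ Real.exp 1 * (m + 3 / 5) := by
  have hm' : (0 : ℝ) < m := by exact_mod_cast hm
  have hm1 : (1 : ℝ) ≤ m := by exact_mod_cast hm
  have h1 : (1 + 1 / (m : ℝ)) ^ m = Real.exp (m * Real.log (1 + 1 / m)) := by
    rw [Real.exp_nat_mul, Real.exp_log (by positivity)]
  have h2 := log_half (x := 1 + 1 / (m : ℝ)) (by
    have : 0 < 1 / (m : ℝ) := by positivity
    linarith)
  have h3 : (m : ℝ) * ((1 + 1 / (m : ℝ) - (1 + 1 / (m : ℝ))⁻¹) / 2) =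
      1 - 1 / (2 * ((m : ℝ) + 1)) := by
    field_simp
    ring
  have h4 : (m : ℝ) * Real.log (1 + 1 / m) ≤ 1 - 1 / (2 * ((m : ℝ) + 1)) := by
    rw [← h3]
    exact mul_le_mul_of_nonneg_left h2 hm'.le
  have h5 : Real.exp (1 - 1 / (2 * ((m : ℝ) + 1))) ≤
      Real.exp 1 * ((2 * ((m : ℝ) + 1)) / (2 * m + 3)) := by
    rw [sub_eq_add_neg, Real.exp_add, Real.exp_neg]
    refine mul_le_mul_of_nonneg_left ?_ (Real.exp_pos 1).le
    have h6 := Real.add_one_le_exp (1 / (2 * ((m : ℝ) + 1)))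
    rw [inv_eq_one_div, div_le_div_iff₀ (Real.exp_pos _) (by positivity)]
    have h7 : 1 / (2 * ((m : ℝ) + 1)) + 1 = (2 * m + 3) / (2 * ((m : ℝ) + 1)) := by
      field_simp
      ring
    rw [h7, div_le_iff₀ (by positivity)] at h6
    linarith
  rw [h1]
  calc ((m : ℝ) + 1) * Real.exp (m * Real.log (1 + 1 / m))
      ≤ ((m : ℝ) + 1) * (Real.exp 1 * ((2 * ((m : ℝ) + 1)) / (2 * m + 3))) :=
        mul_le_mul_of_nonneg_left ((Real.exp_le_exp.2 h4).trans h5) (by positivity)
    _ = Real.exp 1 * (((m : ℝ) + 1) * (2 * ((m : ℝ) + 1)) / (2 * m + 3)) := by ring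
    _ ≤ Real.exp 1 * (m + 3 / 5) := by
        refine mul_le_mul_of_nonneg_left ?_ (Real.exp_pos 1).le
        rw [div_le_iff₀ (by positivity)]
        nlinarith

theorem cs1_ge (m : ℕ) (hm : 0 < m) :
    Real.exp (1 / 2) * (m / Real.exp (1 / 2)) ^ m ≤ cs1 m := by
  have hx : (0 : ℝ) < Real.exp (1 / 2) := Real.exp_pos _
  induction m, hm using Nat.le_induction with
  | base =>
    simp only [cs1, zero_add, Finset.range_one, Finset.prod_singleton, Nat.cast_zero, zero_mul,
      add_zero, Nat.cast_one, pow_one]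
    rw [mul_one_div, div_self hx.ne']
  | succ m hm ih =>
    have hm' : (0 : ℝ) < m := by exact_mod_cast hm
    unfold cs1 at ih ⊢
    rw [Finset.prod_range_succ]
    have h1 := one_add_inv_pow m hm
    have hss : Real.exp (1 / 2) * Real.exp (1 / 2) = Real.exp 1 := by
      rw [← Real.exp_add]; norm_num
    have h2 : Real.exp 1 * (m + 3 / 5) ≤
        (1 + m * Real.exp (1 / 2)) * Real.exp (1 / 2) := by
      have h3 : 3 / 5 * Real.exp 1 ≤ Real.exp (1 / 2) := by
        have h4 := Real.exp_one_lt_d9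
        have h5 : Real.exp (1 / 2) ≤ 5 / 3 := by nlinarith
        nlinarith
      nlinarith
    have h6 : Real.exp (1 / 2) * (((m + 1 : ℕ) : ℝ) / Real.exp (1 / 2)) ^ (m + 1) =
        (Real.exp (1 / 2) * (m / Real.exp (1 / 2)) ^ m) *
          ((((m : ℝ) + 1) * (1 + 1 / (m : ℝ)) ^ m) / Real.exp (1 / 2)) := by
      have h7 : ((m : ℝ) + 1) ^ m = (1 + 1 / (m : ℝ)) ^ m * (m : ℝ) ^ m := by
        rw [← mul_pow]
        congr 1
        field_simp
      rw [div_pow, div_pow, pow_succ, pow_succ]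
      push_cast
      rw [h7]
      field_simp
    rw [h6]
    refine mul_le_mul ih ?_ (by positivity) (Finset.prod_nonneg (fun k _ => by positivity))
    rw [div_le_iff₀ hx]
    exact h1.trans h2

/-- Stirling's upper bound -/
theorem fac_stirling (N : ℕ) (hN : 0 < N) :
    (N.factorial : ℝ) ≤ Real.exp 1 * Real.sqrt N * (N / Real.exp 1) ^ N := by
  obtain ⟨k, rfl⟩ : ∃ k, N = k + 1 := ⟨N - 1, by omega⟩
  have h := Stirling.stirlingSeq'_antitone (Nat.zero_le k)
  simp only [Function.comp_apply] at h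
  rw [show Nat.succ 0 = 1 from rfl, Stirling.stirlingSeq_one, Stirling.stirlingSeq] at h
  have hp : (0 : ℝ) < (k.succ : ℝ) := by positivity
  have hs : (0 : ℝ) < Real.sqrt (2 * (k.succ : ℝ)) := Real.sqrt_pos.2 (by positivity)
  rw [div_le_iff₀ (by positivity)] at h
  refine h.trans (le_of_eq ?_)
  rw [Real.sqrt_mul (by norm_num)]
  have h2 : Real.sqrt 2 ≠ 0 := by positivity
  field_simp

/-- growth for small rank -/
theorem grow_low {n a : ℕ} (L : Fin n → Fin a → ℂ) (ha : 0 < a) (hn : 6 * a ≤ n) (k : ℕ)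
    (h1 : 0 < W L 1) : W L 1 ^ k * cs1 k ^ n ≤ W L k := by
  have hx : (0 : ℝ) < Real.exp (1 / 2) := Real.exp_pos _
  have hn0 : (0 : ℝ) < n := by
    have : 0 < n := by omega
    exact_mod_cast this
  induction k with
  | zero => rw [W_zero]; simp [cs1]
  | succ k ih =>
    have hg := grow0 L ha h1 (n / Real.exp (1 / 2)) (by positivity) (asc_low a ha n hn) k
    have e : (n : ℝ) / (n / Real.exp (1 / 2)) = Real.exp (1 / 2) := by field_simp
    rw [e] at hg
    have e2 : cs1 (k + 1) = cs1 k * (1 + k * Real.exp (1 / 2)) := by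
      unfold cs1
      rw [Finset.prod_range_succ]
    rw [e2, mul_pow, pow_succ]
    calc W L 1 ^ k * W L 1 * (cs1 k ^ n * (1 + k * Real.exp (1 / 2)) ^ n)
        = (W L 1 ^ k * cs1 k ^ n) * (W L 1 * (1 + k * Real.exp (1 / 2)) ^ n) := by ring
      _ ≤ W L k * (W L 1 * (1 + k * Real.exp (1 / 2)) ^ n) :=
          mul_le_mul_of_nonneg_right ih (by positivity)
      _ = W L k * W L 1 * (1 + k * Real.exp (1 / 2)) ^ n := by ring
      _ ≤ _ := hg

theorem cs1_nonneg (m : ℕ) : 0 ≤ cs1 m := by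
  unfold cs1
  have hx : (0 : ℝ) < Real.exp (1 / 2) := Real.exp_pos _
  exact Finset.prod_nonneg (fun k _ => by positivity)

theorem fac_le_cs1 (n m : ℕ) (hn : 0 < n) (hm : 0 < m) :
    ((n * m).factorial : ℝ) ≤ cs1 m ^ n * cs1 n ^ m := by
  set s : ℝ := Real.exp (1 / 2) with hs
  have hs0 : 0 < s := Real.exp_pos _
  have hss : s * s = Real.exp 1 := by
    rw [hs, ← Real.exp_add]; norm_num
  have hn' : (0 : ℝ) < n := by exact_mod_cast hn
  have hm' : (0 : ℝ) < m := by exact_mod_cast hm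
  have h1 := cs1_ge m hm
  have h2 := cs1_ge n hn
  rw [← hs] at h1 h2
  have h3 := fac_stirling (n * m) (Nat.mul_pos hn hm)
  have h4 : (s * (m / s) ^ m) ^ n * (s * (n / s) ^ n) ^ m ≤ cs1 m ^ n * cs1 n ^ m :=
    mul_le_mul (pow_le_pow_left₀ (by positivity) h1 n) (pow_le_pow_left₀ (by positivity) h2 m)
      (by positivity) (pow_nonneg (cs1_nonneg m) n)
  refine h3.trans (le_trans ?_ h4)
  have h5 : (s * (m / s) ^ m) ^ n * (s * (n / s) ^ n) ^ m =
      s ^ (n + m) * ((((n * m : ℕ)) : ℝ) / Real.exp 1) ^ (n * m) := by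
    rw [← hss, mul_pow, mul_pow, ← pow_mul, ← pow_mul, pow_add]
    push_cast
    have : ((n : ℝ) * m / (s * s)) = (n / s) * (m / s) := by field_simp
    rw [this, mul_pow, mul_comm m n]
    ring
  rw [h5]
  refine mul_le_mul_of_nonneg_right ?_ (by positivity)
  have h6 : s ^ (n + m) = Real.exp 1 * Real.exp (((n : ℝ) + m - 2) / 2) := by
    rw [hs, ← Real.exp_nat_mul, ← Real.exp_add]
    congr 1
    push_cast
    ring
  rw [h6]
  refine mul_le_mul_of_nonneg_left ?_ (Real.exp_pos 1).le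
  rw [Real.sqrt_le_left (Real.exp_pos _).le]
  have h7 : Real.exp (((n : ℝ) + m - 2) / 2) ^ 2 = Real.exp ((n : ℝ) - 1) * Real.exp ((m : ℝ) - 1) := by
    rw [← Real.exp_nat_mul, ← Real.exp_add]
    congr 1
    push_cast
    ring
  rw [h7]
  have h8 := Real.add_one_le_exp ((n : ℝ) - 1)
  have h9 := Real.add_one_le_exp ((m : ℝ) - 1)
  push_cast
  exact mul_le_mul (by linarith) (by linarith) hm'.le (Real.exp_pos _).le

/-- the inequality for ranks at most one sixth of the sizes -/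
theorem lsz_low {n m : ℕ} (A : Matrix (Fin n) (Fin n) ℂ) (B : Matrix (Fin m) (Fin m) ℂ)
    (hA : A.PosSemidef) (hB : B.PosSemidef) (hrA : 6 * A.rank ≤ n) (hrB : 6 * B.rank ≤ m) :
    A.permanent ^ m * B.permanent ^ n ≤ (Matrix.kronecker A B).permanent := by
  have hX : 0 ≤ (Matrix.kronecker A B).permanent := per_nonneg _ (hA.kronecker hB)
  rcases Nat.eq_zero_or_pos n with hn | hn
  · subst hn
    have h1 : (Matrix.kronecker A B).permanent = 1 := by
      haveI : IsEmpty (Fin 0 × Fin m) := ⟨fun p => isEmptyElim p.1⟩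
      exact Matrix.permanent_isEmpty
    rw [h1, Matrix.permanent_isEmpty]
    simp
  rcases Nat.eq_zero_or_pos m with hm | hm
  · subst hm
    have h1 : (Matrix.kronecker A B).permanent = 1 := by
      haveI : IsEmpty (Fin n × Fin 0) := ⟨fun p => isEmptyElim p.2⟩
      exact Matrix.permanent_isEmpty
    rw [h1, Matrix.permanent_isEmpty (A := B)]
    simp
  by_cases hA0 : A.permanent = 0
  · rw [hA0, zero_pow hm.ne', zero_mul]
    exact hX
  by_cases hB0 : B.permanent = 0
  · rw [hB0, zero_pow hn.ne', mul_zero]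
    exact hX
  have pos : ∀ {k : ℕ} (M : Matrix (Fin k) (Fin k) ℂ), 0 < k → M.PosSemidef →
      M.permanent ≠ 0 → 6 * M.rank ≤ k → ∀ j : ℕ, ∃ x p : ℝ, 0 ≤ x ∧ 0 ≤ p ∧
        M.permanent = (x : ℂ) ∧ (kron1 j M).permanent = (p : ℂ) ∧ x ^ j * cs1 j ^ k ≤ p := by
    intro k M hk hM hM0 hr j
    obtain ⟨L, hL⟩ := exists_fac M hM M.rank le_rfl
    have hrank : 0 < M.rank := by
      rcases Nat.eq_zero_or_pos M.rank with h0 | h0
      · exfalso
        apply hM0
        have hz : M = 0 := by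
          ext s t
          rw [hL s t]
          haveI : IsEmpty (Fin M.rank) := by rw [h0]; infer_instance
          simp
        haveI : Nonempty (Fin k) := ⟨⟨0, hk⟩⟩
        rw [hz]
        exact Matrix.permanent_zero
      · exact h0
    have e1 : M.permanent = ((W L 1 : ℝ) : ℂ) := by rw [← kron1_one M, W_eq L M hL]
    have hW1 : 0 < W L 1 := by
      rcases eq_or_lt_of_le (W_nonneg L 1) with h | h
      · exfalso
        apply hM0
        rw [e1, ← h]
        simp
      · exact h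
    exact ⟨W L 1, W L j, hW1.le, W_nonneg L j, e1, W_eq L M hL j,
      grow_low L hrank hr j hW1⟩
  obtain ⟨a, p, ha, hp, ea, ep, h1⟩ := pos A hn hA hA0 hrA m
  obtain ⟨b, q, hb, hq, eb, eq, h2⟩ := pos B hm hB hB0 hrB n
  obtain ⟨x, hx, ex⟩ := per_real _ (hA.kronecker hB)
  have ex' : (Matrix.kronecker A B).permanent = (x : ℂ) := ex
  have h3 := lsz_had A B hA hB
  rw [ep, eq, ex'] at h3
  have h3' : p * q ≤ ((n * m).factorial : ℝ) * x := by exact_mod_cast h3
  rw [ea, eb, ex']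
  have h4 := fac_le_cs1 n m hn hm
  have hf : (0 : ℝ) < ((n * m).factorial : ℝ) := by exact_mod_cast Nat.factorial_pos _
  have h5 : ((n * m).factorial : ℝ) * (a ^ m * b ^ n) ≤ ((n * m).factorial : ℝ) * x := by
    calc ((n * m).factorial : ℝ) * (a ^ m * b ^ n)
        ≤ (cs1 m ^ n * cs1 n ^ m) * (a ^ m * b ^ n) :=
          mul_le_mul_of_nonneg_right h4 (by positivity)
      _ = (a ^ m * cs1 m ^ n) * (b ^ n * cs1 n ^ m) := by ring
      _ ≤ p * q := mul_le_mul h1 h2 (mul_nonneg (pow_nonneg hb n)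
          (pow_nonneg (cs1_nonneg n) m)) hp
      _ ≤ _ := h3'
  exact_mod_cast le_of_mul_le_mul_left h5 hf

end Pool.Agent.helper80.LSZ
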