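import Pool.Agent.helper80.LSZ.Num
import Pool.Agent.helper16.LSZ.Forest

set_option linter.all false
set_option autoImplicit false

/-!
# Permanents of `J_k ⊗ B` (MP_2dd521_co)
-/

namespace Pool.Agent.helper80.LSZ

open Finset
open scoped ComplexConjugate ComplexOrder

/-- the matrix `J_k ⊗ B` -/
def kron1 {S : Type*} (k : ℕ) (B : Matrix S S ℂ) : Matrix (Fin k × S) (Fin k × S) ℂ :=
  Matrix.kronecker (Matrix.of (fun _ _ => (1 : ℂ))) B

section

variable {m r : ℕ}

theorem gram_eq (L : Fin m → Fin r → ℂ) (B : Matrix (Fin m) (Fin m) ℂ)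
    (hB : ∀ s t, B s t = ∑ i, L s i * conj (L t i)) (k : ℕ) : kron1 k B = gram k L := by
  ext p q
  simp [kron1, gram, hB, Matrix.kronecker, Matrix.kroneckerMap_apply]

theorem W_eq (L : Fin m → Fin r → ℂ) (B : Matrix (Fin m) (Fin m) ℂ)
    (hB : ∀ s t, B s t = ∑ i, L s i * conj (L t i)) (k : ℕ) :
    (kron1 k B).permanent = ((W L k : ℝ) : ℂ) := by
  rw [W_cast, gram_eq L B hB]

theorem kron1_one {S : Type*} [Fintype S] [DecidableEq S] (B : Matrix S S ℂ) :
    (kron1 1 B).permanent = B.permanent := by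
  have h := Pool.Agent.helper16.LSZ.permanent_submatrix_equiv B (Equiv.uniqueProd S (Fin 1))
  rw [← h]
  congr 1
  ext p q
  simp [kron1, Matrix.kronecker, Matrix.kroneckerMap_apply]

/-- positivity -/
theorem W_pos (L : Fin m → Fin r → ℂ) (h1 : 0 < W L 1) : ∀ k, 0 < W L k ∧ 0 < W L (k + 1) := by
  intro k
  induction k with
  | zero => exact ⟨by rw [W_zero]; exact one_pos, h1⟩
  | succ k ih =>
    refine ⟨ih.2, ?_⟩
    have h := logconv L k
    have hp : (0 : ℝ) < ((Fintype.card (Fin r) + (k + 1) * Fintype.card (Fin m)).ascFactorial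
      (Fintype.card (Fin m)) : ℝ) := by exact_mod_cast asc_pos _ _ _
    have h2 : 0 < W L (k + 1) ^ 2 * ((Fintype.card (Fin r) +
      (k + 1) * Fintype.card (Fin m)).ascFactorial (Fintype.card (Fin m)) : ℝ) := by
      have := ih.2
      positivity
    have h3 := lt_of_lt_of_le h2 h
    by_contra hcon
    have h4 : W L (k + 2) ≤ 0 := not_lt.1 hcon
    have h5 : W L k * W L (k + 2) * ((Fintype.card (Fin r) +
      k * Fintype.card (Fin m)).ascFactorial (Fintype.card (Fin m)) : ℝ) ≤ 0 := by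
      have h6 : W L k * W L (k + 2) ≤ 0 := mul_nonpos_of_nonneg_of_nonpos ih.1.le h4
      exact mul_nonpos_of_nonpos_of_nonneg h6 (Nat.cast_nonneg _)
    linarith

/-- the rising factorial -/
noncomputable def Q (r m k : ℕ) : ℝ := ((r + k * m).ascFactorial m : ℝ)

theorem Q_pos (hr : 0 < r) (k : ℕ) : 0 < Q r m k := by
  unfold Q
  obtain ⟨a, ha⟩ : ∃ a, r + k * m = a + 1 := ⟨r + k * m - 1, by omega⟩
  rw [ha]
  exact_mod_cast Nat.ascFactorial_pos _ _

theorem logconv' (L : Fin m → Fin r → ℂ) (k : ℕ) :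
    W L (k + 1) ^ 2 * Q r m (k + 1) ≤ W L k * W L (k + 2) * Q r m k := by
  have h := logconv L k
  simp only [Fintype.card_fin] at h
  exact h

/-- the ratios increase -/
theorem ratio_mono (L : Fin m → Fin r → ℂ) (hr : 0 < r) (h1 : 0 < W L 1) :
    Monotone (fun k => W L (k + 1) / (W L k * Q r m k)) := by
  refine monotone_nat_of_le_succ (fun k => ?_)
  have p0 := (W_pos L h1 k).1
  have p1 := (W_pos L h1 k).2
  have q0 := Q_pos (m := m) hr k
  have q1 := Q_pos (m := m) hr (k + 1)
  rw [div_le_div_iff₀ (by positivity) (by positivity)]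
  have h := logconv' L k
  nlinarith [h]

theorem step0 (L : Fin m → Fin r → ℂ) (hr : 0 < r) (h1 : 0 < W L 1) (k : ℕ) :
    W L k * W L 1 * Q r m k ≤ W L (k + 1) * Q r m 0 := by
  have h := ratio_mono L hr h1 (Nat.zero_le k)
  simp only at h
  have p0 := (W_pos L h1 k).1
  have q0 := Q_pos (m := m) hr k
  have q1 := Q_pos (m := m) hr 0
  rw [W_zero, one_mul, zero_add, div_le_div_iff₀ q1 (by positivity)] at h
  nlinarith [h]

theorem step1 (L : Fin m → Fin r → ℂ) (hr : 0 < r) (h1 : 0 < W L 1) (k : ℕ) (hk : 1 ≤ k) :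
    W L k * W L 2 * Q r m k ≤ W L (k + 1) * (W L 1 * Q r m 1) := by
  have h := ratio_mono L hr h1 hk
  simp only at h
  have p0 := (W_pos L h1 k).1
  have q0 := Q_pos (m := m) hr k
  have q1 := Q_pos (m := m) hr 1
  rw [div_le_div_iff₀ (by positivity) (by positivity)] at h
  nlinarith [h]

/-- one step under a bound for the geometric mean of `r, ..., r + m - 1` -/
theorem grow0 (L : Fin m → Fin r → ℂ) (hr : 0 < r) (h1 : 0 < W L 1) (g : ℝ) (hg : 0 < g)
    (hgm : (r.ascFactorial m : ℝ) ≤ g ^ m) (k : ℕ) :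
    W L k * W L 1 * (1 + k * (m / g)) ^ m ≤ W L (k + 1) := by
  have h := step0 L hr h1 k
  have hs := asc_super r m (k * m) g hr hg hgm
  have q1 : 0 < Q r m 0 := Q_pos (m := m) hr 0
  have e0 : Q r m 0 = (r.ascFactorial m : ℝ) := by simp [Q]
  have ek : Q r m k = ((r + k * m).ascFactorial m : ℝ) := rfl
  rw [← e0, ← ek] at hs
  have hgm' : 0 < g ^ m := by positivity
  have e1 : (g + ((k * m : ℕ) : ℝ)) ^ m = (1 + k * (m / g)) ^ m * g ^ m := by
    rw [← mul_pow]
    congr 1
    push_cast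
    field_simp
  rw [e1] at hs
  have hs' : Q r m 0 * (1 + k * (m / g)) ^ m ≤ Q r m k := by
    have : (Q r m 0 * (1 + k * (m / g)) ^ m) * g ^ m ≤ Q r m k * g ^ m := by nlinarith [hs]
    exact le_of_mul_le_mul_right this hgm'
  have p0 := (W_pos L h1 k).1
  have h3 : (W L k * W L 1 * (1 + k * (m / g)) ^ m) * Q r m 0 ≤ W L (k + 1) * Q r m 0 := by
    calc _ = W L k * W L 1 * (Q r m 0 * (1 + k * (m / g)) ^ m) := by ring
      _ ≤ W L k * W L 1 * Q r m k := mul_le_mul_of_nonneg_left hs' (by positivity)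
      _ ≤ _ := h
  exact le_of_mul_le_mul_right h3 q1

/-- Pate's inequality for small rank -/
theorem pate_low (L : Fin m → Fin r → ℂ) (hr : 0 < r) (hm : 0 < m)
    (hrm : r.ascFactorial m ≤ m ^ m) (k : ℕ) :
    ((k.factorial : ℝ)) ^ m * W L 1 ^ k ≤ W L k := by
  rcases eq_or_lt_of_le (W_nonneg L 1) with h1 | h1
  · rcases Nat.eq_zero_or_pos k with hk | hk
    · subst hk
      rw [W_zero]
      simp
    · rw [← h1, zero_pow hk.ne', mul_zero]
      exact W_nonneg L k
  · have hm' : (0 : ℝ) < m := by exact_mod_cast hm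
    induction k with
    | zero => rw [W_zero]; simp
    | succ k ih =>
      have hg := grow0 L hr h1 m hm' (by exact_mod_cast hrm) k
      rw [div_self hm'.ne', mul_one] at hg
      have e : (((k + 1).factorial : ℕ) : ℝ) ^ m = (1 + (k : ℝ)) ^ m * (k.factorial : ℝ) ^ m := by
        rw [Nat.factorial_succ, ← mul_pow]
        push_cast
        ring
      calc (((k + 1).factorial : ℕ) : ℝ) ^ m * W L 1 ^ (k + 1)
          = ((k.factorial : ℝ) ^ m * W L 1 ^ k) * (W L 1 * (1 + (k : ℝ)) ^ m) := by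
            rw [e]; ring
        _ ≤ W L k * (W L 1 * (1 + (k : ℝ)) ^ m) :=
            mul_le_mul_of_nonneg_right ih (by positivity)
        _ = W L k * W L 1 * (1 + (k : ℝ)) ^ m := by ring
        _ ≤ _ := hg

/-- the general growth estimate, from the case `k = 2` -/
theorem pate_gen (L : Fin m → Fin r → ℂ) (hr : 0 < r) (hm : 0 < m) (hrm : r ≤ m)
    (h2 : 2 ^ m * W L 1 ^ 2 ≤ W L 2) (k : ℕ) :
    ((k.factorial : ℝ)) ^ m * 4 ^ (m * (k - 2)) * W L 1 ^ k ≤ 5 ^ (m * (k - 2)) * W L k := by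
  rcases eq_or_lt_of_le (W_nonneg L 1) with h1 | h1
  · rcases Nat.eq_zero_or_pos k with hk | hk
    · subst hk
      rw [W_zero]
      simp
    · rw [← h1, zero_pow hk.ne', mul_zero]
      have := W_nonneg L k
      positivity
  · have hm' : (0 : ℝ) < m := by exact_mod_cast hm
    have hm1 : (1 : ℝ) ≤ m := by exact_mod_cast hm
    have hrm' : (r : ℝ) ≤ m := by exact_mod_cast hrm
    rcases Nat.lt_or_ge k 2 with hk | hk
    · interval_cases k
      · rw [W_zero]; simp
      · simp
    · obtain ⟨j, rfl⟩ : ∃ j, k = j + 2 := ⟨k - 2, by omega⟩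
      simp only [Nat.add_sub_cancel]
      clear hk
      induction j with
      | zero =>
        simp only [mul_zero, pow_zero, mul_one, one_mul, zero_add]
        simpa using h2
      | succ j ih =>
        have h := step1 L hr h1 (j + 2) (by omega)
        have q1 := Q_pos (m := m) hr 1
        have hgm : (((r + m).ascFactorial m : ℕ) : ℝ) ≤ (5 / 2 * (m : ℝ)) ^ m := by
          refine asc_le (r + m) m _ (by positivity) ?_
          push_cast
          linarith
        have hs := asc_super (r + m) m ((j + 1) * m) (5 / 2 * m) (by omega) (by positivity) hgm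
        have e1 : Q r m 1 = (((r + m).ascFactorial m : ℕ) : ℝ) := by simp [Q]
        have e2 : Q r m (j + 2) = (((r + m + (j + 1) * m).ascFactorial m : ℕ) : ℝ) := by
          unfold Q
          congr 2
          ring
        rw [← e1, ← e2] at hs
        have hgm' : 0 < (5 / 2 * (m : ℝ)) ^ m := by positivity
        have e3 : (5 / 2 * (m : ℝ) + (((j + 1) * m : ℕ) : ℝ)) ^ m =
            (1 + 2 / 5 * ((j : ℝ) + 1)) ^ m * (5 / 2 * (m : ℝ)) ^ m := by
          rw [← mul_pow]
          congr 1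
          push_cast
          ring
        rw [e3] at hs
        have hs' : Q r m 1 * (1 + 2 / 5 * ((j : ℝ) + 1)) ^ m ≤ Q r m (j + 2) := by
          have : (Q r m 1 * (1 + 2 / 5 * ((j : ℝ) + 1)) ^ m) * (5 / 2 * (m : ℝ)) ^ m ≤
              Q r m (j + 2) * (5 / 2 * (m : ℝ)) ^ m := by nlinarith [hs]
          exact le_of_mul_le_mul_right this hgm'
        have p0 := (W_pos L h1 (j + 2)).1
        have h3 : (W L (j + 2) * W L 1 * (2 * (1 + 2 / 5 * ((j : ℝ) + 1))) ^ m) *
            (W L 1 * Q r m 1) ≤ W L (j + 3) * (W L 1 * Q r m 1) := by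
          calc _ = W L (j + 2) * (2 ^ m * W L 1 ^ 2) *
                (Q r m 1 * (1 + 2 / 5 * ((j : ℝ) + 1)) ^ m) := by
                rw [mul_pow]; ring
            _ ≤ W L (j + 2) * W L 2 * Q r m (j + 2) := by
                have hq := Q_pos (m := m) hr (j + 2)
                have hw2 := W_nonneg L 2
                exact mul_le_mul (mul_le_mul_of_nonneg_left h2 p0.le) hs' (by positivity)
                  (by positivity)
            _ ≤ _ := h
        have h4 : W L (j + 2) * W L 1 * (2 * (1 + 2 / 5 * ((j : ℝ) + 1))) ^ m ≤ W L (j + 3) :=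
          le_of_mul_le_mul_right h3 (by positivity)
        have h5 : (4 / 5 * ((j : ℝ) + 3)) ^ m ≤ (2 * (1 + 2 / 5 * ((j : ℝ) + 1))) ^ m :=
          pow_le_pow_left₀ (by positivity) (by linarith) m
        have h6 : W L (j + 2) * W L 1 * (4 * ((j : ℝ) + 3)) ^ m ≤ 5 ^ m * W L (j + 3) := by
          have e4 : (4 * ((j : ℝ) + 3)) ^ m = 5 ^ m * (4 / 5 * ((j : ℝ) + 3)) ^ m := by
            rw [← mul_pow]
            congr 1
            ring
          rw [e4]
          calc _ = 5 ^ m * (W L (j + 2) * W L 1 * (4 / 5 * ((j : ℝ) + 3)) ^ m) := by ring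
            _ ≤ 5 ^ m * (W L (j + 2) * W L 1 * (2 * (1 + 2 / 5 * ((j : ℝ) + 1))) ^ m) := by
                refine mul_le_mul_of_nonneg_left ?_ (by positivity)
                exact mul_le_mul_of_nonneg_left h5 (by positivity)
            _ ≤ _ := mul_le_mul_of_nonneg_left h4 (by positivity)
        have e5 : (((j + 1 + 2).factorial : ℕ) : ℝ) ^ m * 4 ^ (m * (j + 1)) =
            (4 * ((j : ℝ) + 3)) ^ m * (((j + 2).factorial : ℝ) ^ m * 4 ^ (m * j)) := by
          rw [show j + 1 + 2 = (j + 2) + 1 from rfl, Nat.factorial_succ, mul_add, mul_one, pow_add,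
            mul_pow (4 : ℝ)]
          push_cast
          rw [mul_pow]
          ring
        calc (((j + 1 + 2).factorial : ℕ) : ℝ) ^ m * 4 ^ (m * (j + 1)) * W L 1 ^ (j + 1 + 2)
            = (((j + 2).factorial : ℝ) ^ m * 4 ^ (m * j) * W L 1 ^ (j + 2)) *
                (W L 1 * (4 * ((j : ℝ) + 3)) ^ m) := by rw [e5]; ring
          _ ≤ (5 ^ (m * j) * W L (j + 2)) * (W L 1 * (4 * ((j : ℝ) + 3)) ^ m) :=
              mul_le_mul_of_nonneg_right ih (by positivity)
          _ = 5 ^ (m * j) * (W L (j + 2) * W L 1 * (4 * ((j : ℝ) + 3)) ^ m) := by ring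
          _ ≤ 5 ^ (m * j) * (5 ^ m * W L (j + 3)) :=
              mul_le_mul_of_nonneg_left h6 (by positivity)
          _ = _ := by rw [mul_add, mul_one, pow_add]; ring

end

/-- factorization of a positive semidefinite matrix of rank at most `r` -/
theorem exists_fac {m : ℕ} (B : Matrix (Fin m) (Fin m) ℂ) (hB : B.PosSemidef) (r : ℕ)
    (hr : B.rank ≤ r) : ∃ L : Fin m → Fin r → ℂ, ∀ s t, B s t = ∑ i, L s i * conj (L t i) := by
  classical
  have hH := hB.1
  have hrank := hH.rank_eq_card_non_zero_eigs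
  have hcard : Fintype.card {i // hH.eigenvalues i ≠ 0} ≤ Fintype.card (Fin r) := by
    rw [Fintype.card_fin, ← hrank]
    exact hr
  obtain ⟨e⟩ := Function.Embedding.nonempty_of_card_le hcard
  set U : Matrix (Fin m) (Fin m) ℂ := (hH.eigenvectorUnitary : Matrix (Fin m) (Fin m) ℂ) with hU
  have hspec : ∀ s t, B s t = ∑ j, U s j * (hH.eigenvalues j : ℂ) * conj (U t j) := by
    intro s t
    have h := hH.spectral_theorem
    rw [Unitary.conjStarAlgAut_apply] at h
    have h2 := congrFun (congrFun h s) t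
    rw [h2, Matrix.mul_apply]
    refine Finset.sum_congr rfl (fun j _ => ?_)
    rw [Matrix.mul_diagonal, Matrix.star_apply]
    rfl
  refine ⟨fun s i => if h : ∃ j, e j = i then U s (h.choose : Fin m) *
    ((Real.sqrt (hH.eigenvalues (h.choose : Fin m)) : ℝ) : ℂ) else 0, ?_⟩
  intro s t
  rw [hspec]
  have h1 : ∑ j, U s j * (hH.eigenvalues j : ℂ) * conj (U t j) =
      ∑ j : {i // hH.eigenvalues i ≠ 0}, U s j * (hH.eigenvalues j : ℂ) * conj (U t j) := by
    refine (Fintype.sum_of_injective (Subtype.val : {i // hH.eigenvalues i ≠ 0} → Fin m)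
      Subtype.val_injective _ _ ?_ (fun i => rfl)).symm
    intro i hi
    have h0 : hH.eigenvalues i = 0 := by
      by_contra hne
      exact hi ⟨⟨i, hne⟩, rfl⟩
    rw [h0]
    simp
  rw [h1]
  refine Fintype.sum_of_injective e e.injective _ _ ?_ ?_
  · intro i hi
    have : ¬ ∃ j, e j = i := fun ⟨j, hj⟩ => hi ⟨j, hj⟩
    simp only [dif_neg this, zero_mul]
  · intro j
    have hex : ∃ j', e j' = e j := ⟨j, rfl⟩
    have hch : hex.choose = j := e.injective hex.choose_spec
    simp only [dif_pos hex, hch]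
    have hnn : 0 ≤ hH.eigenvalues j := hB.eigenvalues_nonneg j
    have hsq : ((Real.sqrt (hH.eigenvalues j) : ℝ) : ℂ) * ((Real.sqrt (hH.eigenvalues j) : ℝ) : ℂ) =
        (hH.eigenvalues j : ℂ) := by
      rw [← Complex.ofReal_mul, Real.mul_self_sqrt hnn]
    rw [map_mul, Complex.conj_ofReal, ← hsq]
    ring

/-- the case `k = 2` (Pate), from the star forest theorem of helper16 -/
theorem two_copies {m : ℕ} (B : Matrix (Fin m) (Fin m) ℂ) (hB : B.PosSemidef) :
    (2 : ℂ) ^ m * B.permanent ^ 2 ≤ (kron1 2 B).permanent := by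
  have hA : (Matrix.of (fun (_ _ : Fin 2) => (1 : ℂ))).PosSemidef := by
    have h := Matrix.posSemidef_conjTranspose_mul_self (Matrix.of (fun (_ : Fin 1) (_ : Fin 2) => (1 : ℂ)))
    convert h using 1
    ext i j
    simp [Matrix.mul_apply]
  have h := Pool.Agent.helper16.LSZ.lsz_forest (Matrix.of (fun (_ _ : Fin 2) => (1 : ℂ))) hA
    (fun _ => 0) (fun _ => rfl) (by
      intro i j hij h1 h2
      exfalso
      apply hij
      have : ∀ x : Fin 2, (0 : Fin 2) ≠ x → x = 1 := by decide
      rw [this i h2, this j h1]) B hB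
  have hp : (Matrix.of (fun (_ _ : Fin 2) => (1 : ℂ))).permanent = 2 := by
    simp [Matrix.permanent, Fintype.card_perm]
  rw [hp] at h
  simpa [kron1] using h

theorem kron1_empty {S : Type*} [Fintype S] [DecidableEq S] [IsEmpty S] (k : ℕ)
    (B : Matrix S S ℂ) : (kron1 k B).permanent = 1 := by
  haveI : IsEmpty (Fin k × S) := ⟨fun p => isEmptyElim p.2⟩
  exact Matrix.permanent_isEmpty

/-- Pate's inequality for `rank B ≤ r`, `r (r+1) ... (r+m-1) ≤ m^m` -/
theorem pate_rank {m : ℕ} (B : Matrix (Fin m) (Fin m) ℂ) (hB : B.PosSemidef) (r : ℕ)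
    (hr : B.rank ≤ r) (hrm : r.ascFactorial m ≤ m ^ m) (k : ℕ) :
    ((k.factorial : ℕ) : ℂ) ^ m * B.permanent ^ k ≤ (kron1 k B).permanent := by
  rcases Nat.eq_zero_or_pos m with hm | hm
  · subst hm
    rw [kron1_empty, Matrix.permanent_isEmpty]
    simp
  · have key : ∀ r' : ℕ, 0 < r' → B.rank ≤ r' → r'.ascFactorial m ≤ m ^ m →
        ((k.factorial : ℕ) : ℂ) ^ m * B.permanent ^ k ≤ (kron1 k B).permanent := by
      intro r' hr' hrank hrm'
      obtain ⟨L, hL⟩ := exists_fac B hB r' hrank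
      have h := pate_low L hr' hm hrm' k
      rw [W_eq L B hL, ← kron1_one B, W_eq L B hL]
      exact_mod_cast h
    rcases Nat.eq_zero_or_pos r with h0 | h0
    · refine key 1 one_pos (by omega) ?_
      rw [Nat.one_ascFactorial]
      exact Nat.factorial_le_pow m
    · exact key r h0 hr hrm

/-- the general bound -/
theorem pate_all {m : ℕ} (B : Matrix (Fin m) (Fin m) ℂ) (hB : B.PosSemidef) (k : ℕ) :
    ((k.factorial : ℕ) : ℂ) ^ m * 4 ^ (m * (k - 2)) * B.permanent ^ k ≤
      5 ^ (m * (k - 2)) * (kron1 k B).permanent := by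
  rcases Nat.eq_zero_or_pos m with hm | hm
  · subst hm
    rw [kron1_empty, Matrix.permanent_isEmpty]
    simp
  · obtain ⟨L, hL⟩ := exists_fac B hB m (by
      have := B.rank_le_card_width
      simpa using this)
    have h2 := two_copies B hB
    rw [W_eq L B hL, ← kron1_one B, W_eq L B hL] at h2
    have h2' : 2 ^ m * W L 1 ^ 2 ≤ W L 2 := by exact_mod_cast h2
    have h := pate_gen L hm hm le_rfl h2' k
    rw [W_eq L B hL, ← kron1_one B, W_eq L B hL]
    exact_mod_cast h

/-- log-convexity -/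
theorem pate_ratio {m : ℕ} (B : Matrix (Fin m) (Fin m) ℂ) (hB : B.PosSemidef) (r : ℕ)
    (hr : B.rank ≤ r) (k : ℕ) :
    (kron1 (k + 1) B).permanent ^ 2 * (((r + (k + 1) * m).ascFactorial m : ℕ) : ℂ) ≤
      (kron1 k B).permanent * (kron1 (k + 2) B).permanent *
        (((r + k * m).ascFactorial m : ℕ) : ℂ) := by
  obtain ⟨L, hL⟩ := exists_fac B hB r hr
  have h := logconv' L k
  unfold Q at h
  rw [W_eq L B hL, W_eq L B hL, W_eq L B hL]
  exact_mod_cast h

end Pool.Agent.helper80.LSZ
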