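import Pool.Agent.helper80.LSZ.Pate

/-!
# Pate's permanent inequality: log-convexity, small rank, and a bound for all matrices

`per (J_k ⊗ B)` for a positive semidefinite `B` of size `m × m` and rank at most `r`.
-/

set_option autoImplicit false
open scoped ComplexOrder

namespace Pool.Agent.Results.MP_2dd521_co.CopiesOfOneMatrix

/-- `per (J_k ⊗ B)`, where `J_k` is the `k × k` matrix with all entries `1` -/
def perJ {m : ℕ} (B : Matrix (Fin m) (Fin m) ℂ) (k : ℕ) : ℂ :=
  (Matrix.kronecker (Matrix.of fun (_ _ : Fin k) => (1 : ℂ)) B).permanent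

/-- For a positive semidefinite `B` of size `m × m`:
* the numbers `per (J_k ⊗ B)` are log-convex after division by the rising factorials
  `r (r + 1) ... (r + k m - 1)`, for every `r ≥ rank B`;
* Pate's inequality `(k!)^m (per B)^k ≤ per (J_k ⊗ B)` holds for all `k` if
  `r (r + 1) ... (r + m - 1) ≤ m ^ m` for some `r ≥ rank B`, in particular if
  `2 rank B ≤ m + 1`;
* without any condition it holds up to the factor `(5 / 4) ^ (m (k - 2))`. -/
theorem result (m : ℕ) (B : Matrix (Fin m) (Fin m) ℂ) (hB : B.PosSemidef) :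
    (∀ r : ℕ, B.rank ≤ r → ∀ k : ℕ,
      perJ B (k + 1) ^ 2 * (((r + (k + 1) * m).ascFactorial m : ℕ) : ℂ) ≤
        perJ B k * perJ B (k + 2) * (((r + k * m).ascFactorial m : ℕ) : ℂ)) ∧
    (∀ r : ℕ, B.rank ≤ r → r.ascFactorial m ≤ m ^ m → ∀ k : ℕ,
      ((k.factorial : ℕ) : ℂ) ^ m * B.permanent ^ k ≤ perJ B k) ∧
    (2 * B.rank ≤ m + 1 → ∀ k : ℕ,
      ((k.factorial : ℕ) : ℂ) ^ m * B.permanent ^ k ≤ perJ B k) ∧
    (∀ k : ℕ, ((k.factorial : ℕ) : ℂ) ^ m * 4 ^ (m * (k - 2)) * B.permanent ^ k ≤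
      5 ^ (m * (k - 2)) * perJ B k) := by
  refine ⟨fun r hr k => Pool.Agent.helper80.LSZ.pate_ratio B hB r hr k,
    fun r hr hrm k => Pool.Agent.helper80.LSZ.pate_rank B hB r hr hrm k, fun h k => ?_,
    fun k => Pool.Agent.helper80.LSZ.pate_all B hB k⟩
  refine Pool.Agent.helper80.LSZ.pate_rank B hB B.rank le_rfl ?_ k
  have h1 := Pool.Agent.helper80.LSZ.asc_le B.rank m (m : ℝ) (Nat.cast_nonneg m) (by
    have h2 : 2 * (B.rank : ℝ) ≤ m + 1 := by exact_mod_cast h
    linarith)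
  exact_mod_cast h1

end Pool.Agent.Results.MP_2dd521_co.CopiesOfOneMatrix
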