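import Pool.Agent.helper80.LSZ.Loss

/-!
# The Liang–So–Zhang inequality up to an exponential factor, and for small ranks
-/

set_option autoImplicit false
open scoped ComplexOrder

namespace Pool.Agent.Results.MP_2dd521_co.ExponentialLoss

/-- the `k × k` matrix with all entries `1` -/
def J (k : ℕ) : Matrix (Fin k) (Fin k) ℂ := Matrix.of fun _ _ => 1

/-- For positive semidefinite `A` (`n × n`) and `B` (`m × m`):
* `per (A ⊗ J_m) per (J_n ⊗ B) ≤ (n m)! per (A ⊗ B)`;
* `(per A)^m (per B)^n ≤ (17 / 4)^(n m) per (A ⊗ B)`;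
* `(per A)^m (per B)^n ≤ per (A ⊗ B)` if `rank A ≤ n / 6` and `rank B ≤ m / 6`. -/
theorem result (n m : ℕ) (A : Matrix (Fin n) (Fin n) ℂ) (B : Matrix (Fin m) (Fin m) ℂ)
    (hA : A.PosSemidef) (hB : B.PosSemidef) :
    ((Matrix.kronecker A (J m)).permanent * (Matrix.kronecker (J n) B).permanent ≤
      (((n * m).factorial : ℕ) : ℂ) * (Matrix.kronecker A B).permanent) ∧
    (4 ^ (n * m) * (A.permanent ^ m * B.permanent ^ n) ≤
      17 ^ (n * m) * (Matrix.kronecker A B).permanent) ∧
    (6 * A.rank ≤ n → 6 * B.rank ≤ m →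
      A.permanent ^ m * B.permanent ^ n ≤ (Matrix.kronecker A B).permanent) := by
  refine ⟨?_, Pool.Agent.helper80.LSZ.lsz_exp A B hA hB,
    fun h1 h2 => Pool.Agent.helper80.LSZ.lsz_low A B hA hB h1 h2⟩
  have h := Pool.Agent.helper80.LSZ.lsz_had A B hA hB
  have e1 : (Matrix.kronecker A (J m)).permanent =
      (Pool.Agent.helper80.LSZ.kron1 m A).permanent := by
    rw [← Pool.Agent.helper16.LSZ.permanent_submatrix_equiv
      (Pool.Agent.helper80.LSZ.kron1 m A) (Equiv.prodComm (Fin n) (Fin m))]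
    congr 1
    ext p q
    simp [Pool.Agent.helper80.LSZ.kron1, Matrix.kronecker, Matrix.kroneckerMap_apply, J]
  rw [e1]
  exact h

end Pool.Agent.Results.MP_2dd521_co.ExponentialLoss
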