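import Pool.Agent.helper80.LSZ.Pate

set_option linter.all false
set_option autoImplicit false

/-!
# Permanents of Hadamard products (MP_2dd521_co)
-/

namespace Pool.Agent.helper80.LSZ

open Finset
open scoped ComplexConjugate ComplexOrder

section

variable {S : Type*} [Fintype S] [DecidableEq S]

/-- the matrix of the diagonal products -/
def MP (P : Matrix S S ℂ) : Matrix (Equiv.Perm S) (Equiv.Perm S) ℂ :=
  Matrix.of (fun σ τ => ∏ s, P (σ s) (τ s))

theorem MP_psd (P : Matrix S S ℂ) (hP : P.PosSemidef) : (MP P).PosSemidef := by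
  obtain ⟨C, rfl⟩ := Pool.Agent.helper16.LSZ.exists_factor hP
  set X : Matrix (S → S) (Equiv.Perm S) ℂ := Matrix.of (fun φ τ => ∏ s, C (φ s) (τ s)) with hX
  have h : MP (C.conjTranspose * C) = X.conjTranspose * X := by
    ext σ τ
    rw [Matrix.mul_apply]
    simp only [MP, hX, Matrix.of_apply, Matrix.conjTranspose_apply, Matrix.mul_apply]
    rw [Finset.prod_univ_sum, Fintype.piFinset_univ]
    refine Finset.sum_congr rfl (fun φ _ => ?_)
    rw [Finset.prod_mul_distrib, star_prod]
  rw [h]
  exact Matrix.posSemidef_conjTranspose_mul_self X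

theorem MP_row (P : Matrix S S ℂ) (σ : Equiv.Perm S) : ∑ τ, MP P σ τ = P.permanent := by
  rw [Pool.Agent.helper16.LSZ.permanent_eq]
  refine Fintype.sum_equiv (Equiv.mulRight σ⁻¹) _ _ (fun τ => ?_)
  simp only [MP, Matrix.of_apply, Equiv.coe_mulRight]
  rw [← Equiv.prod_comp σ (fun i => P i ((τ * σ⁻¹) i))]
  refine Finset.prod_congr rfl (fun s _ => ?_)
  simp

theorem MP_col (P : Matrix S S ℂ) (τ : Equiv.Perm S) : ∑ σ, MP P σ τ = P.permanent := by
  unfold Matrix.permanent
  refine Fintype.sum_equiv (Equiv.mulRight τ⁻¹) _ _ (fun σ => ?_)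
  simp only [MP, Matrix.of_apply, Equiv.coe_mulRight]
  rw [← Equiv.prod_comp τ (fun i => P ((σ * τ⁻¹) i) i)]
  refine Finset.prod_congr rfl (fun s _ => ?_)
  simp

/-- `per P per Q ≤ N! per (P ∘ Q)` -/
theorem had (P Q : Matrix S S ℂ) (hP : P.PosSemidef) (hQ : Q.PosSemidef) :
    P.permanent * Q.permanent ≤
      (((Fintype.card S).factorial : ℕ) : ℂ) * (Matrix.hadamard P Q).permanent := by
  classical
  set N : ℂ := (((Fintype.card S).factorial : ℕ) : ℂ) with hN
  have hN0 : N ≠ 0 := by
    rw [hN]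
    exact_mod_cast Nat.factorial_ne_zero _
  have hcard : ((Fintype.card (Equiv.Perm S) : ℕ) : ℂ) = N := by
    rw [Fintype.card_perm]
  set J : Matrix (Equiv.Perm S) (Equiv.Perm S) ℂ := Matrix.of (fun _ _ => 1) with hJ
  set G := MP P with hG
  set g := P.permanent with hg
  have hGJ : G * J = g • J := by
    ext σ τ
    rw [Matrix.mul_apply]
    simp only [hJ, Matrix.of_apply, mul_one, Matrix.smul_apply, smul_eq_mul]
    exact MP_row P σ
  have hJG : J * G = g • J := by
    ext σ τ
    rw [Matrix.mul_apply]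
    simp only [hJ, Matrix.of_apply, one_mul, Matrix.smul_apply, smul_eq_mul, mul_one]
    exact MP_col P τ
  have hJJ : J * J = N • J := by
    ext σ τ
    rw [Matrix.mul_apply]
    simp only [hJ, Matrix.of_apply, mul_one, Matrix.smul_apply, smul_eq_mul, Finset.sum_const,
      Finset.card_univ, nsmul_eq_mul]
    exact hcard
  have hK : (G - (g / N) • J).PosSemidef := by
    have h1 := (MP_psd P hP).mul_mul_conjTranspose_same (1 - (1 / N) • J)
    have hKc : (1 - (1 / N) • J).conjTranspose = 1 - (1 / N) • J := by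
      rw [Matrix.conjTranspose_sub, Matrix.conjTranspose_one, Matrix.conjTranspose_smul]
      congr 2
      · rw [hN]
        simp
      · ext σ τ
        simp [hJ]
    rw [hKc, ← hG] at h1
    have h2 : (1 - (1 / N) • J) * G * (1 - (1 / N) • J) = G - (g / N) • J := by
      rw [Matrix.sub_mul, Matrix.one_mul, Matrix.smul_mul, hJG, Matrix.mul_sub, Matrix.mul_one,
        Matrix.sub_mul, Matrix.mul_smul, Matrix.mul_smul, hGJ, Matrix.smul_mul, Matrix.smul_mul,
        hJJ]
      simp only [smul_smul, smul_sub]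
      have e1 : 1 / N * g = g / N := by ring
      have e2 : 1 / N * (1 / N * (g * N)) = g / N := by field_simp
      have e3 : 1 / N * (1 / N * g * N) = g / N := by field_simp
      first
        | (rw [e1, e2]; abel)
        | (rw [e1, e3]; abel)
    rw [h2] at h1
    exact h1
  have hH := hK.hadamard (MP_psd Q hQ)
  have h0 := hH.dotProduct_mulVec_nonneg (fun _ => 1)
  have e : star (fun _ : Equiv.Perm S => (1 : ℂ)) ⬝ᵥ
      (Matrix.hadamard (G - (g / N) • J) (MP Q)).mulVec (fun _ => 1) =
      N * (Matrix.hadamard P Q).permanent - g * Q.permanent := by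
    simp only [dotProduct, Matrix.mulVec, Pi.star_apply, star_one, one_mul, mul_one,
      Matrix.hadamard_apply, Matrix.sub_apply, Matrix.smul_apply, smul_eq_mul, hJ,
      Matrix.of_apply, sub_mul, Finset.sum_sub_distrib]
    have e1 : ∀ σ : Equiv.Perm S, ∑ τ, G σ τ * MP Q σ τ = (Matrix.hadamard P Q).permanent := by
      intro σ
      rw [← MP_row (Matrix.hadamard P Q) σ]
      refine Finset.sum_congr rfl (fun τ _ => ?_)
      simp only [hG, MP, Matrix.of_apply, Matrix.hadamard_apply]
      rw [Finset.prod_mul_distrib]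
    have e2 : ∀ σ : Equiv.Perm S, ∑ τ, g / N * MP Q σ τ = g / N * Q.permanent := by
      intro σ
      rw [← Finset.mul_sum, MP_row]
    simp only [e1, e2, Finset.sum_const, Finset.card_univ, nsmul_eq_mul, hcard]
    field_simp
  rw [e] at h0
  exact sub_nonneg.1 h0

end

/-- the reduction to `J_m ⊗ A` and `J_n ⊗ B` -/
theorem lsz_had {n m : ℕ} (A : Matrix (Fin n) (Fin n) ℂ) (B : Matrix (Fin m) (Fin m) ℂ)
    (hA : A.PosSemidef) (hB : B.PosSemidef) :
    (kron1 m A).permanent * (kron1 n B).permanent ≤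
      (((n * m).factorial : ℕ) : ℂ) * (Matrix.kronecker A B).permanent := by
  have hJ : ∀ k : ℕ, (Matrix.of (fun (_ _ : Fin k) => (1 : ℂ))).PosSemidef := by
    intro k
    have h := Matrix.posSemidef_conjTranspose_mul_self
      (Matrix.of (fun (_ : Fin 1) (_ : Fin k) => (1 : ℂ)))
    convert h using 1
    ext i j
    simp [Matrix.mul_apply]
  have h1 : (Matrix.kronecker A (Matrix.of (fun (_ _ : Fin m) => (1 : ℂ)))).PosSemidef :=
    hA.kronecker (hJ m)
  have h2 : (Matrix.kronecker (Matrix.of (fun (_ _ : Fin n) => (1 : ℂ))) B).PosSemidef :=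
    (hJ n).kronecker hB
  have h := had _ _ h1 h2
  have e1 : (Matrix.kronecker A (Matrix.of (fun (_ _ : Fin m) => (1 : ℂ)))).permanent =
      (kron1 m A).permanent := by
    rw [← Pool.Agent.helper16.LSZ.permanent_submatrix_equiv (kron1 m A)
      (Equiv.prodComm (Fin n) (Fin m))]
    congr 1
    ext p q
    simp [kron1, Matrix.kronecker, Matrix.kroneckerMap_apply]
  have e2 : Matrix.hadamard (Matrix.kronecker A (Matrix.of (fun (_ _ : Fin m) => (1 : ℂ))))
      (Matrix.kronecker (Matrix.of (fun (_ _ : Fin n) => (1 : ℂ))) B) =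
      Matrix.kronecker A B := by
    ext p q
    simp [Matrix.kronecker, Matrix.kroneckerMap_apply]
  rw [e1, e2] at h
  have hc : Fintype.card (Fin n × Fin m) = n * m := by simp
  rw [hc] at h
  exact h

end Pool.Agent.helper80.LSZ
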