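import Pool.Agent.helper80.LSZ.Wick2

set_option linter.all false
set_option autoImplicit false

/-!
# Log-convexity of normalized permanents (MP_2dd521_co)
-/

namespace Pool.Agent.helper80.LSZ

open MeasureTheory Finset
open scoped Real ComplexConjugate

section

variable {S ι : Type*} [Fintype S] [DecidableEq S] [Fintype ι] [DecidableEq ι]

/-- `|f(z)|²` -/
noncomputable def xr (L : S → ι → ℂ) (z : ι → ℂ) : ℝ := Complex.normSq (pf L z)

/-- `|z|²` -/
noncomputable def yr (z : ι → ℂ) : ℝ := ∑ i, Complex.normSq (z i)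

theorem xr_nonneg (L : S → ι → ℂ) (z : ι → ℂ) : 0 ≤ xr L z := Complex.normSq_nonneg _

theorem yr_nonneg (z : ι → ℂ) : 0 ≤ yr z := Finset.sum_nonneg (fun i _ => Complex.normSq_nonneg _)

theorem xr_cast (L : S → ι → ℂ) (z : ι → ℂ) : ((xr L z : ℝ) : ℂ) = pf L z * conj (pf L z) := by
  rw [Complex.mul_conj]; rfl

theorem yr_cast (z : ι → ℂ) : ((yr z : ℝ) : ℂ) = nsq z := by
  unfold yr nsq
  push_cast
  refine Finset.sum_congr rfl (fun i _ => ?_)
  rw [Complex.mul_conj]

/-- the moments -/
noncomputable def RR (L : S → ι → ℂ) (k j : ℕ) : ℝ := ∫ z, xr L z ^ k * yr z ^ j * gr z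

theorem xy_mem (L : S → ι → ℂ) (k j : ℕ) :
    (fun z : ι → ℂ => ((xr L z ^ k * yr z ^ j : ℝ) : ℂ)) ∈ PolA ι := by
  have : (fun z : ι → ℂ => ((xr L z ^ k * yr z ^ j : ℝ) : ℂ)) =
      fun z => (pf L z * conj (pf L z)) ^ k * nsq z ^ j := by
    ext z
    push_cast
    rw [xr_cast, yr_cast]
  rw [this]
  exact mul_mem' (pow_mem' (mul_mem' (pf_mem L) (conj_pf_mem L)) k) (pow_mem' nsq_mem j)

theorem xy_integrable (L : S → ι → ℂ) (k j : ℕ) :
    Integrable (fun z : ι → ℂ => xr L z ^ k * yr z ^ j * gr z) := by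
  have h := (PolA_integrable (xy_mem L k j)).re
  refine h.congr (Filter.Eventually.of_forall (fun z => ?_))
  show (((xr L z ^ k * yr z ^ j : ℝ) : ℂ) * ((gr z : ℝ) : ℂ)).re = _
  rw [← Complex.ofReal_mul, Complex.ofReal_re]

theorem RR_nonneg (L : S → ι → ℂ) (k j : ℕ) : 0 ≤ RR L k j :=
  integral_nonneg (fun z => mul_nonneg (mul_nonneg (pow_nonneg (xr_nonneg L z) k)
    (pow_nonneg (yr_nonneg z) j)) (gr_nonneg z))

/-- `k` copies of the forms -/
def rep (k : ℕ) (L : S → ι → ℂ) : Fin k × S → ι → ℂ := fun p => L p.2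

theorem pf_rep (k : ℕ) (L : S → ι → ℂ) (z : ι → ℂ) : pf (rep k L) z = pf L z ^ k := by
  unfold pf rep
  rw [Fintype.prod_prod_type]
  simp

/-- the Gram matrix of `k` copies -/
noncomputable def gram (k : ℕ) (L : S → ι → ℂ) : Matrix (Fin k × S) (Fin k × S) ℂ :=
  fun p q => ∑ i, L p.2 i * conj (L q.2 i)

theorem RR_cast (L : S → ι → ℂ) (k j : ℕ) : ((RR L k j : ℝ) : ℂ) =
    (gram k L).permanent * ((Fintype.card ι + k * Fintype.card S).ascFactorial j : ℂ) := by
  have h := wick (rep k L) (rep k L) j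
  have hc : Fintype.card (Fin k × S) = k * Fintype.card S := by simp
  rw [hc] at h
  rw [show (gram k L).permanent = Matrix.permanent
    (fun s t => ∑ i, rep k L s i * conj (rep k L t i)) from rfl]
  rw [← h]
  unfold RR E
  rw [← integral_complex_ofReal]
  refine integral_congr_ae (Filter.Eventually.of_forall (fun z => ?_))
  show (((xr L z ^ k * yr z ^ j * gr z : ℝ) : ℂ)) =
    pf (rep k L) z * conj (pf (rep k L) z) * nsq z ^ j * ((gr z : ℝ) : ℂ)
  rw [pf_rep, Complex.ofReal_mul, Complex.ofReal_mul, Complex.ofReal_pow, Complex.ofReal_pow,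
    xr_cast, yr_cast, map_pow]
  ring

/-- the permanent of `k` copies, as a real number -/
noncomputable def W (L : S → ι → ℂ) (k : ℕ) : ℝ := RR L k 0

theorem W_cast (L : S → ι → ℂ) (k : ℕ) : ((W L k : ℝ) : ℂ) = (gram k L).permanent := by
  unfold W
  rw [RR_cast]
  simp

theorem W_nonneg (L : S → ι → ℂ) (k : ℕ) : 0 ≤ W L k := RR_nonneg L k 0

theorem RR_eq (L : S → ι → ℂ) (k j : ℕ) : RR L k j =
    W L k * ((Fintype.card ι + k * Fintype.card S).ascFactorial j : ℝ) := by
  have h := RR_cast L k j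
  rw [← W_cast] at h
  exact_mod_cast h

theorem W_zero (L : S → ι → ℂ) : W L 0 = 1 := by
  have h := W_cast L 0
  have : (gram 0 L).permanent = 1 := by
    unfold Matrix.permanent
    simp
  rw [this] at h
  exact_mod_cast h

/-- Cauchy-Schwarz -/
theorem cs (L : S → ι → ℂ) (k m : ℕ) :
    RR L (k + 1) m ^ 2 ≤ RR L k (2 * m) * RR L (k + 2) 0 := by
  have h := discrim_le_zero (a := RR L k (2 * m)) (b := 2 * RR L (k + 1) m)
    (c := RR L (k + 2) 0) (by
      intro t
      have e : RR L k (2 * m) * (t * t) + 2 * RR L (k + 1) m * t + RR L (k + 2) 0 =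
          ∫ z, xr L z ^ k * (t * yr z ^ m + xr L z) ^ 2 * gr z := by
        have e1 : ∀ z : ι → ℂ, xr L z ^ k * (t * yr z ^ m + xr L z) ^ 2 * gr z =
            (t * t) * (xr L z ^ k * yr z ^ (2 * m) * gr z) +
            (2 * t) * (xr L z ^ (k + 1) * yr z ^ m * gr z) +
            xr L z ^ (k + 2) * yr z ^ 0 * gr z := by
          intro z
          ring
        simp_rw [e1]
        rw [integral_add, integral_add, integral_const_mul, integral_const_mul]
        · unfold RR
          ring
        · exact (xy_integrable L k (2 * m)).const_mul _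
        · exact (xy_integrable L (k + 1) m).const_mul _
        · exact ((xy_integrable L k (2 * m)).const_mul _).add
            ((xy_integrable L (k + 1) m).const_mul _)
        · exact xy_integrable L (k + 2) 0
      rw [e]
      exact integral_nonneg (fun z => mul_nonneg (mul_nonneg (pow_nonneg (xr_nonneg L z) k)
        (sq_nonneg _)) (gr_nonneg z)))
  unfold discrim at h
  nlinarith

theorem asc_split (a m : ℕ) : a.ascFactorial (2 * m) = a.ascFactorial m * (a + m).ascFactorial m := by
  rw [two_mul, ← Nat.ascFactorial_mul_ascFactorial]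

theorem asc_pos (r m k : ℕ) : 0 < (r + (k + 1) * m).ascFactorial m := by
  rcases Nat.eq_zero_or_pos m with h | h
  · subst h; simp
  · have : 0 < r + (k + 1) * m := by positivity
    obtain ⟨a, ha⟩ : ∃ a, r + (k + 1) * m = a + 1 := ⟨r + (k + 1) * m - 1, by omega⟩
    rw [ha]
    exact Nat.ascFactorial_pos _ _

/-- log-convexity -/
theorem logconv (L : S → ι → ℂ) (k : ℕ) :
    W L (k + 1) ^ 2 * ((Fintype.card ι + (k + 1) * Fintype.card S).ascFactorial (Fintype.card S) : ℝ)
      ≤ W L k * W L (k + 2) *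
        ((Fintype.card ι + k * Fintype.card S).ascFactorial (Fintype.card S) : ℝ) := by
  have h := cs L k (Fintype.card S)
  rw [RR_eq, RR_eq, RR_eq L (k + 2) 0, asc_split] at h
  have hpos : (0 : ℝ) < ((Fintype.card ι + (k + 1) * Fintype.card S).ascFactorial
      (Fintype.card S) : ℝ) := by exact_mod_cast asc_pos _ _ _
  have e : Fintype.card ι + k * Fintype.card S + Fintype.card S =
      Fintype.card ι + (k + 1) * Fintype.card S := by ring
  rw [e] at h
  push_cast at h
  simp only [Nat.ascFactorial_zero, Nat.cast_one, mul_one] at h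
  set P : ℝ := ((Fintype.card ι + (k + 1) * Fintype.card S).ascFactorial (Fintype.card S) : ℝ)
  set Q : ℝ := ((Fintype.card ι + k * Fintype.card S).ascFactorial (Fintype.card S) : ℝ)
  have h2 : (W L (k + 1) ^ 2 * P) * P ≤ (W L k * W L (k + 2) * Q) * P := by
    nlinarith [h]
  exact le_of_mul_le_mul_right h2 hpos

end

end Pool.Agent.helper80.LSZ
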