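import Pool.Agent.helper80.LSZ.Main

set_option linter.all false
set_option autoImplicit false

/-!
# Geometric means and ratios (MP_2dd521_co)
-/

namespace Pool.Agent.helper80.LSZ

open Finset

/-- superadditivity of the geometric mean -/
theorem geom_super {ι : Type*} (s : Finset ι) (x : ι → ℝ) (g c : ℝ) (hx : ∀ i ∈ s, 0 < x i)
    (hg : 0 < g) (hc : 0 ≤ c) (h : ∏ i ∈ s, x i ≤ g ^ s.card) :
    (∏ i ∈ s, x i) * (g + c) ^ s.card ≤ (∏ i ∈ s, (x i + c)) * g ^ s.card := by
  have hgc : 0 < g + c := by linarith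
  set ν : ℝ := c / (g + c) with hν
  have hν0 : 0 ≤ ν := by positivity
  have hlam : g / (g + c) + ν = 1 := by
    rw [hν, ← add_div, div_self hgc.ne']
  have point : ∀ i ∈ s, x i * ((g + c) / g) * (g / x i) ^ ν ≤ x i + c := by
    intro i hi
    have hxi := hx i hi
    have am := Real.geom_mean_le_arith_mean2_weighted (w₁ := g / (g + c)) (w₂ := ν)
      (p₁ := (g + c) / g) (p₂ := (g + c) / x i) (by positivity) hν0 (by positivity)
      (by positivity) hlam
    have e1 : g / (g + c) * ((g + c) / g) + ν * ((g + c) / x i) = (x i + c) / x i := by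
      rw [hν]
      field_simp
    rw [e1] at am
    have e2 : ((g + c) / x i) ^ ν = ((g + c) / g) ^ ν * (g / x i) ^ ν := by
      rw [← Real.mul_rpow (by positivity) (by positivity)]
      congr 1
      field_simp
    have e3 : ((g + c) / g) ^ (g / (g + c)) * (((g + c) / g) ^ ν * (g / x i) ^ ν) =
        ((g + c) / g) * (g / x i) ^ ν := by
      rw [← mul_assoc, ← Real.rpow_add (by positivity), hlam, Real.rpow_one]
    rw [e2, e3] at am
    calc x i * ((g + c) / g) * (g / x i) ^ ν = x i * (((g + c) / g) * (g / x i) ^ ν) := by ring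
      _ ≤ x i * ((x i + c) / x i) := mul_le_mul_of_nonneg_left am hxi.le
      _ = x i + c := by field_simp
  have hprod : ∏ i ∈ s, (x i * ((g + c) / g) * (g / x i) ^ ν) ≤ ∏ i ∈ s, (x i + c) :=
    Finset.prod_le_prod (fun i hi => by have := hx i hi; positivity) point
  have hxp : 0 < ∏ i ∈ s, x i := Finset.prod_pos hx
  have e4 : ∏ i ∈ s, (x i * ((g + c) / g) * (g / x i) ^ ν) =
      (∏ i ∈ s, x i) * ((g + c) / g) ^ s.card * (g ^ s.card / ∏ i ∈ s, x i) ^ ν := by
    rw [Finset.prod_mul_distrib, Finset.prod_mul_distrib, Finset.prod_const,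
      Real.finset_prod_rpow _ _ (fun i hi => by have := hx i hi; positivity),
      Finset.prod_div_distrib, Finset.prod_const]
  rw [e4] at hprod
  have h1 : (1 : ℝ) ≤ (g ^ s.card / ∏ i ∈ s, x i) ^ ν :=
    Real.one_le_rpow ((one_le_div hxp).2 h) hν0
  have h2 : (∏ i ∈ s, x i) * ((g + c) / g) ^ s.card ≤ ∏ i ∈ s, (x i + c) := by
    refine le_trans ?_ hprod
    have : 0 ≤ (∏ i ∈ s, x i) * ((g + c) / g) ^ s.card := by positivity
    nlinarith
  have hgm : 0 < g ^ s.card := by positivity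
  calc (∏ i ∈ s, x i) * (g + c) ^ s.card =
        ((∏ i ∈ s, x i) * ((g + c) / g) ^ s.card) * g ^ s.card := by
        rw [div_pow]; field_simp
    _ ≤ _ := mul_le_mul_of_nonneg_right h2 hgm.le

/-- the same for rising factorials -/
theorem asc_super (a m c : ℕ) (g : ℝ) (ha : 0 < a) (hg : 0 < g)
    (h : (a.ascFactorial m : ℝ) ≤ g ^ m) :
    (a.ascFactorial m : ℝ) * (g + c) ^ m ≤ ((a + c).ascFactorial m : ℝ) * g ^ m := by
  have key := geom_super (Finset.range m) (fun i => ((a + i : ℕ) : ℝ)) g c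
    (fun i _ => by positivity) hg (Nat.cast_nonneg c) (by
      rw [Nat.ascFactorial_eq_prod_range] at h
      push_cast at h ⊢
      simpa using h)
  rw [Finset.card_range] at key
  rw [Nat.ascFactorial_eq_prod_range, Nat.ascFactorial_eq_prod_range]
  push_cast at key ⊢
  refine key.trans (le_of_eq ?_)
  congr 1
  refine Finset.prod_congr rfl (fun i _ => ?_)
  ring

/-- arithmetic and geometric mean -/
theorem asc_le (a m : ℕ) (g : ℝ) (hg : 0 ≤ g) (h : (a : ℝ) + ((m : ℝ) - 1) / 2 ≤ g) :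
    (a.ascFactorial m : ℝ) ≤ g ^ m := by
  rw [Nat.ascFactorial_eq_prod_range]
  push_cast
  set P : ℝ := ∏ i ∈ Finset.range m, ((a : ℝ) + i) with hP
  have hP0 : 0 ≤ P := Finset.prod_nonneg (fun i _ => by positivity)
  have h1 : P = ∏ i ∈ Finset.range m, ((a : ℝ) + ((m - 1 - i : ℕ) : ℝ)) := by
    rw [hP]
    exact (Finset.prod_range_reflect (fun i => (a : ℝ) + (i : ℝ)) m).symm
  have h2 : P * P ≤ g ^ m * g ^ m := by
    calc P * P = (∏ i ∈ Finset.range m, ((a : ℝ) + i)) *
          ∏ i ∈ Finset.range m, ((a : ℝ) + ((m - 1 - i : ℕ) : ℝ)) := by rw [← hP, ← h1]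
      _ = ∏ i ∈ Finset.range m, (((a : ℝ) + i) * ((a : ℝ) + ((m - 1 - i : ℕ) : ℝ))) := by
          rw [Finset.prod_mul_distrib]
      _ ≤ ∏ i ∈ Finset.range m, (g * g) := by
          refine Finset.prod_le_prod (fun i _ => by positivity) (fun i hi => ?_)
          have hi' := Finset.mem_range.1 hi
          have e : ((m - 1 - i : ℕ) : ℝ) = (m : ℝ) - 1 - i := by
            rw [Nat.cast_sub (by omega), Nat.cast_sub (by omega)]
            simp
          rw [e]
          have hi0 : (0 : ℝ) ≤ i := Nat.cast_nonneg i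
          have ha0 : (0 : ℝ) ≤ a := Nat.cast_nonneg a
          have hi1 : (i : ℝ) ≤ (m : ℝ) - 1 := by
            have : ((i + 1 : ℕ) : ℝ) ≤ m := by exact_mod_cast hi'
            push_cast at this
            linarith
          have hmid : 0 ≤ (a : ℝ) + ((m : ℝ) - 1) / 2 := by linarith
          calc ((a : ℝ) + i) * ((a : ℝ) + ((m : ℝ) - 1 - i))
              ≤ ((a : ℝ) + ((m : ℝ) - 1) / 2) * ((a : ℝ) + ((m : ℝ) - 1) / 2) := by
                nlinarith [sq_nonneg ((i : ℝ) - ((m : ℝ) - 1) / 2)]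
            _ ≤ g * g := mul_le_mul h h hmid hg
      _ = g ^ m * g ^ m := by
          rw [Finset.prod_const, Finset.card_range, mul_pow]
  have h3 : 0 ≤ g ^ m := pow_nonneg hg m
  nlinarith

end Pool.Agent.helper80.LSZ
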