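import Mathlib

set_option linter.all false
set_option autoImplicit false

/-!
# Gaussian moments of products of linear forms (MP_2dd521_co)
-/

namespace Pool.Agent.helper80.LSZ

open MeasureTheory Finset
open scoped Real ComplexConjugate

/-! ### dimension one -/

/-- the Gaussian weight on `ℂ` -/
noncomputable def g1 (z : ℂ) : ℝ := Real.exp (-‖z‖ ^ 2) / π

theorem g1_nonneg (z : ℂ) : 0 ≤ g1 z := by unfold g1; positivity

theorem int_norm (n : ℕ) : ∫ z : ℂ, ‖z‖ ^ n * g1 z = Real.Gamma (((n : ℝ) + 2) / 2) := by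
  have h := Complex.integral_rpow_mul_exp_neg_rpow (p := 2) (q := n) (by norm_num)
    (by have : (0 : ℝ) ≤ n := Nat.cast_nonneg n; linarith)
  have e : ∀ z : ℂ, ‖z‖ ^ n * g1 z = (1 / π) * (‖z‖ ^ (n : ℝ) * Real.exp (-‖z‖ ^ (2 : ℝ))) := by
    intro z
    unfold g1
    rw [Real.rpow_natCast, Real.rpow_two]
    ring
  simp_rw [e]
  rw [integral_const_mul, h]
  have := Real.pi_ne_zero
  field_simp

theorem integrable_norm (n : ℕ) : Integrable (fun z : ℂ => ‖z‖ ^ n * g1 z) := by
  by_contra h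
  have h1 := integral_undef h
  rw [int_norm] at h1
  have h2 : 0 < Real.Gamma (((n : ℝ) + 2) / 2) := Real.Gamma_pos_of_pos (by positivity)
  linarith

theorem g1_cont : Continuous g1 := by
  unfold g1
  fun_prop

theorem integrable_mom (a b : ℕ) :
    Integrable (fun z : ℂ => z ^ a * conj z ^ b * (g1 z : ℂ)) := by
  refine (integrable_norm (a + b)).mono' ?_ ?_
  · have := g1_cont
    exact Continuous.aestronglyMeasurable (by fun_prop)
  · refine Filter.Eventually.of_forall (fun z => ?_)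
    rw [norm_mul, norm_mul, norm_pow, norm_pow, Complex.norm_conj, pow_add, Complex.norm_real,
      Real.norm_of_nonneg (g1_nonneg z)]

theorem mom_ne {a b : ℕ} (hab : a ≠ b) : ∫ z : ℂ, z ^ a * conj z ^ b * (g1 z : ℂ) = 0 := by
  have hne : ((a : ℝ) - b) ≠ 0 := by
    rw [sub_ne_zero]
    exact_mod_cast hab
  set θ : ℝ := π / ((a : ℝ) - b) with hθ
  set u : Circle := Circle.exp θ with hu
  have huv : (u : ℂ) ^ a * conj (u : ℂ) ^ b = -1 := by
    rw [hu, Circle.coe_exp, ← Complex.exp_conj, ← Complex.exp_nat_mul, ← Complex.exp_nat_mul,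
      ← Complex.exp_add]
    have e : (a : ℂ) * (θ * Complex.I) + b * (conj ((θ : ℂ) * Complex.I)) = π * Complex.I := by
      rw [map_mul, Complex.conj_ofReal, Complex.conj_I]
      have h3 : (((a : ℝ) - b : ℝ) : ℂ) ≠ 0 := by exact_mod_cast hne
      have h4 : (θ : ℂ) * (((a : ℝ) - b : ℝ) : ℂ) = π := by
        rw [← Complex.ofReal_mul, hθ, div_mul_cancel₀ _ hne]
      rw [← h4]
      push_cast
      ring
    rw [e, Complex.exp_pi_mul_I]
  have h1 := (rotation u).measurePreserving.integral_comp'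
    (f := (rotation u).toHomeomorph.toMeasurableEquiv)
    (fun z : ℂ => z ^ a * conj z ^ b * (g1 z : ℂ))
  have h2 : ∀ z : ℂ, ((rotation u).toHomeomorph.toMeasurableEquiv z) = (u : ℂ) * z := by
    intro z
    rfl
  have h3 : ∀ z : ℂ, ((u : ℂ) * z) ^ a * conj ((u : ℂ) * z) ^ b * (g1 ((u : ℂ) * z) : ℂ) =
      -(z ^ a * conj z ^ b * (g1 z : ℂ)) := by
    intro z
    have h4 : g1 ((u : ℂ) * z) = g1 z := by
      unfold g1
      rw [norm_mul, Circle.norm_coe, one_mul]
    rw [h4, mul_pow, map_mul, mul_pow]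
    calc _ = ((u : ℂ) ^ a * conj (u : ℂ) ^ b) * (z ^ a * conj z ^ b * (g1 z : ℂ)) := by ring
      _ = _ := by rw [huv]; ring
  simp only [h2, h3] at h1
  rw [integral_neg] at h1
  have h5 : (2 : ℂ) * ∫ z : ℂ, z ^ a * conj z ^ b * (g1 z : ℂ) = 0 := by
    linear_combination (-1 : ℂ) * h1
  exact (mul_eq_zero.1 h5).resolve_left two_ne_zero

theorem mom_eq (a : ℕ) : ∫ z : ℂ, z ^ a * conj z ^ a * (g1 z : ℂ) = (a.factorial : ℂ) := by
  have e : ∀ z : ℂ, z ^ a * conj z ^ a * (g1 z : ℂ) = ((‖z‖ ^ (2 * a) * g1 z : ℝ) : ℂ) := by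
    intro z
    rw [← mul_pow, Complex.mul_conj, Complex.normSq_eq_norm_sq, pow_mul]
    push_cast
    ring
  simp_rw [e]
  rw [integral_complex_ofReal, int_norm]
  have : (((2 * a : ℕ) : ℝ) + 2) / 2 = (a : ℝ) + 1 := by push_cast; ring
  rw [this, Real.Gamma_nat_eq_factorial]
  simp

theorem mom (a b : ℕ) : ∫ z : ℂ, z ^ a * conj z ^ b * (g1 z : ℂ) =
    if a = b then (a.factorial : ℂ) else 0 := by
  split_ifs with h
  · rw [← h]; exact mom_eq a
  · exact mom_ne h

/-! ### several variables -/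

section multi

variable {ι : Type*} [Fintype ι]

/-- the Gaussian weight on `ι → ℂ` -/
noncomputable def gr (z : ι → ℂ) : ℝ := ∏ i, g1 (z i)

theorem gr_nonneg (z : ι → ℂ) : 0 ≤ gr z := Finset.prod_nonneg (fun i _ => g1_nonneg _)

/-- monomial in `z` and `conj z` -/
noncomputable def mono (α β : ι → ℕ) (z : ι → ℂ) : ℂ :=
  (∏ i, z i ^ α i) * ∏ i, conj (z i) ^ β i

theorem mono_gr (α β : ι → ℕ) (z : ι → ℂ) : mono α β z * (gr z : ℂ) =
    ∏ i, (z i ^ α i * conj (z i) ^ β i * (g1 (z i) : ℂ)) := by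
  unfold mono gr
  push_cast
  rw [Finset.prod_mul_distrib, Finset.prod_mul_distrib]

theorem integrable_mono (α β : ι → ℕ) :
    Integrable (fun z : ι → ℂ => mono α β z * (gr z : ℂ)) := by
  simp_rw [mono_gr]
  exact Integrable.fintype_prod (f := fun i (z : ℂ) => z ^ α i * conj z ^ β i * (g1 z : ℂ))
    (fun i => integrable_mom (α i) (β i))

/-- the mean value -/
noncomputable def E (F : (ι → ℂ) → ℂ) : ℂ := ∫ z, F z * (gr z : ℂ)

theorem E_mono [DecidableEq (ι → ℕ)] (α β : ι → ℕ) : E (mono α β) =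
    if α = β then ∏ i, ((α i).factorial : ℂ) else 0 := by
  classical
  unfold E
  simp_rw [mono_gr]
  rw [integral_fintype_prod_volume_eq_prod
    (f := fun i (z : ℂ) => z ^ α i * conj z ^ β i * (g1 z : ℂ))]
  simp_rw [mom]
  by_cases h : α = β
  · subst h
    simp
  · rw [if_neg h]
    have : ∃ i, α i ≠ β i := by
      by_contra hcon
      push Not at hcon
      exact h (funext hcon)
    obtain ⟨i, hi⟩ := this
    exact Finset.prod_eq_zero (Finset.mem_univ i) (by rw [if_neg hi])

/-- the polynomials in `z` and `conj z` -/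
noncomputable def PolA (ι : Type*) [Fintype ι] : Subalgebra ℂ ((ι → ℂ) → ℂ) :=
  (MvPolynomial.aeval (R := ℂ) (Sum.elim (fun i (z : ι → ℂ) => z i)
    (fun i (z : ι → ℂ) => conj (z i)))).range

theorem aeval_monomial_eq (u : (ι ⊕ ι) →₀ ℕ) (a : ℂ) (z : ι → ℂ) :
    (MvPolynomial.aeval (R := ℂ) (Sum.elim (fun i (z : ι → ℂ) => z i)
      (fun i (z : ι → ℂ) => conj (z i))) (MvPolynomial.monomial u a)) z =
    a * mono (fun i => u (Sum.inl i)) (fun i => u (Sum.inr i)) z := by
  rw [MvPolynomial.aeval_monomial, Finsupp.prod_fintype]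
  · rw [Fintype.prod_sum_type]
    simp [mono, Finset.prod_apply]
  · intro i
    exact pow_zero _

theorem PolA_integrable {F : (ι → ℂ) → ℂ} (hF : F ∈ PolA ι) :
    Integrable (fun z : ι → ℂ => F z * (gr z : ℂ)) := by
  obtain ⟨p, rfl⟩ := hF
  simp only [RingHom.coe_coe, AlgHom.toRingHom_eq_coe]
  induction p using MvPolynomial.induction_on' with
  | monomial u a =>
    have e : ∀ z : ι → ℂ, (MvPolynomial.aeval (R := ℂ) (Sum.elim (fun i (z : ι → ℂ) => z i)
      (fun i (z : ι → ℂ) => conj (z i))) (MvPolynomial.monomial u a)) z * (gr z : ℂ) =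
      a * (mono (fun i => u (Sum.inl i)) (fun i => u (Sum.inr i)) z * (gr z : ℂ)) := by
      intro z
      rw [aeval_monomial_eq]
      ring
    simp_rw [e]
    exact (integrable_mono _ _).const_mul a
  | add p q hp hq =>
    have := hp.add hq
    refine this.congr (Filter.Eventually.of_forall (fun z => ?_))
    simp only [map_add, Pi.add_apply]
    ring

theorem coord_mem (i : ι) : (fun z : ι → ℂ => z i) ∈ PolA ι :=
  ⟨MvPolynomial.X (Sum.inl i), by simp⟩

theorem conj_coord_mem (i : ι) : (fun z : ι → ℂ => conj (z i)) ∈ PolA ι :=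
  ⟨MvPolynomial.X (Sum.inr i), by simp⟩

theorem const_mem (c : ℂ) : (fun _ : ι → ℂ => c) ∈ PolA ι :=
  ⟨MvPolynomial.C c, by
    simp only [AlgHom.toRingHom_eq_coe, RingHom.coe_coe, MvPolynomial.aeval_C]
    rfl⟩

theorem mul_mem' {F G : (ι → ℂ) → ℂ} (hF : F ∈ PolA ι) (hG : G ∈ PolA ι) :
    (fun z => F z * G z) ∈ PolA ι := (PolA ι).mul_mem hF hG

theorem add_mem' {F G : (ι → ℂ) → ℂ} (hF : F ∈ PolA ι) (hG : G ∈ PolA ι) :
    (fun z => F z + G z) ∈ PolA ι := (PolA ι).add_mem hF hG

theorem pow_mem' {F : (ι → ℂ) → ℂ} (hF : F ∈ PolA ι) (n : ℕ) :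
    (fun z => F z ^ n) ∈ PolA ι := (PolA ι).pow_mem hF n

theorem sum_mem' {S : Type*} (s : Finset S) {F : S → (ι → ℂ) → ℂ}
    (hF : ∀ i ∈ s, F i ∈ PolA ι) : (fun z => ∑ i ∈ s, F i z) ∈ PolA ι := by
  have := (PolA ι).sum_mem hF
  convert this using 1
  ext z
  simp

theorem prod_mem' {S : Type*} (s : Finset S) {F : S → (ι → ℂ) → ℂ}
    (hF : ∀ i ∈ s, F i ∈ PolA ι) : (fun z => ∏ i ∈ s, F i z) ∈ PolA ι := by
  have := (PolA ι).prod_mem hF
  convert this using 1
  ext z
  simp

/-- linear forms -/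
theorem lin_mem (L : ι → ℂ) : (fun z : ι → ℂ => ∑ i, L i * z i) ∈ PolA ι :=
  sum_mem' _ (fun i _ => mul_mem' (const_mem _) (coord_mem i))

theorem conj_lin_mem (L : ι → ℂ) : (fun z : ι → ℂ => conj (∑ i, L i * z i)) ∈ PolA ι := by
  have : (fun z : ι → ℂ => conj (∑ i, L i * z i)) =
      (fun z : ι → ℂ => ∑ i, conj (L i) * conj (z i)) := by
    ext z
    simp
  rw [this]
  exact sum_mem' _ (fun i _ => mul_mem' (const_mem _) (conj_coord_mem i))

theorem E_add {F G : (ι → ℂ) → ℂ} (hF : F ∈ PolA ι) (hG : G ∈ PolA ι) :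
    E (fun z => F z + G z) = E F + E G := by
  unfold E
  rw [← integral_add (PolA_integrable hF) (PolA_integrable hG)]
  simp_rw [add_mul]

theorem E_smul (c : ℂ) (F : (ι → ℂ) → ℂ) : E (fun z => c * F z) = c * E F := by
  unfold E
  rw [← integral_const_mul]
  simp_rw [mul_assoc]

theorem E_sum {S : Type*} (s : Finset S) {F : S → (ι → ℂ) → ℂ}
    (hF : ∀ i ∈ s, F i ∈ PolA ι) : E (fun z => ∑ i ∈ s, F i z) = ∑ i ∈ s, E (F i) := by
  unfold E
  rw [← integral_finset_sum s (fun i hi => PolA_integrable (hF i hi))]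
  simp_rw [Finset.sum_mul]

/-! ### the norm -/

/-- `|z|²` -/
noncomputable def nsq (z : ι → ℂ) : ℂ := ∑ i, z i * conj (z i)

theorem nsq_mem : (nsq : (ι → ℂ) → ℂ) ∈ PolA ι :=
  sum_mem' _ (fun i _ => mul_mem' (coord_mem i) (conj_coord_mem i))

theorem mono_mem (α β : ι → ℕ) : mono α β ∈ PolA ι := by
  unfold mono
  exact mul_mem' (prod_mem' _ (fun i _ => pow_mem' (coord_mem i) _))
    (prod_mem' _ (fun i _ => pow_mem' (conj_coord_mem i) _))

theorem mono_mul [DecidableEq ι] (α β : ι → ℕ) (j : ι) (z : ι → ℂ) :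
    mono α β z * (z j * conj (z j)) = mono (α + Pi.single j 1) (β + Pi.single j 1) z := by
  unfold mono
  have h : ∀ (w : ι → ℂ) (γ : ι → ℕ), ∏ i, w i ^ (γ + Pi.single j 1 : ι → ℕ) i =
      (∏ i, w i ^ γ i) * w j := by
    intro w γ
    have : ∀ i, w i ^ (γ + Pi.single j 1 : ι → ℕ) i = w i ^ γ i * (if i = j then w j else 1) := by
      intro i
      rw [Pi.add_apply, pow_add]
      by_cases hij : i = j
      · subst hij; simp
      · simp [Pi.single_eq_of_ne hij, hij]
    simp_rw [this]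
    rw [Finset.prod_mul_distrib]
    simp
  rw [h z α, h (fun i => conj (z i)) β]
  ring

theorem E_mono_norm [DecidableEq (ι → ℕ)] (j : ℕ) : ∀ α β : ι → ℕ,
    E (fun z => mono α β z * nsq z ^ j) = if α = β then
      (∏ i, ((α i).factorial : ℂ)) * ((Fintype.card ι + ∑ i, α i).ascFactorial j : ℂ)
      else 0 := by
  classical
  induction j with
  | zero =>
    intro α β
    simp only [pow_zero, mul_one, Nat.ascFactorial_zero, Nat.cast_one]
    exact E_mono α β
  | succ j ih =>
    intro α β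
    have e : ∀ z : ι → ℂ, mono α β z * nsq z ^ (j + 1) =
        ∑ i, mono (α + Pi.single i 1) (β + Pi.single i 1) z * nsq z ^ j := by
      intro z
      rw [pow_succ']
      conv_lhs => rw [← mul_assoc]
      rw [← Finset.sum_mul]
      congr 1
      unfold nsq
      rw [Finset.mul_sum]
      refine Finset.sum_congr rfl (fun i _ => mono_mul α β i z)
    simp_rw [e]
    rw [E_sum _ (fun i _ => mul_mem' (mono_mem _ _) (pow_mem' nsq_mem _))]
    simp_rw [ih]
    by_cases h : α = β
    · subst h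
      simp only [if_true]
      have e1 : ∀ i : ι, ∏ k, (((α + Pi.single i 1 : ι → ℕ) k).factorial : ℂ) =
          (∏ k, ((α k).factorial : ℂ)) * (α i + 1) := by
        intro i
        have : ∀ k, (((α + Pi.single i 1 : ι → ℕ) k).factorial : ℂ) =
            ((α k).factorial : ℂ) * (if k = i then ((α i : ℂ) + 1) else 1) := by
          intro k
          by_cases hk : k = i
          · subst hk
            simp [Nat.factorial_succ, mul_comm]
          · simp [Pi.single_eq_of_ne hk, hk]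
        simp_rw [this]
        rw [Finset.prod_mul_distrib]
        simp
      have e2 : ∀ i : ι, ∑ k, (α + Pi.single i 1 : ι → ℕ) k = (∑ k, α k) + 1 := by
        intro i
        simp [Finset.sum_add_distrib]
      simp_rw [e1, e2]
      rw [← Finset.sum_mul, ← Finset.mul_sum]
      have e3 : ∑ i : ι, ((α i : ℂ) + 1) = ((Fintype.card ι + ∑ i, α i : ℕ) : ℂ) := by
        rw [Finset.sum_add_distrib]
        push_cast
        simp
        ring
      rw [e3]
      have e4 : (Fintype.card ι + ∑ i, α i).ascFactorial (j + 1) =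
          (Fintype.card ι + ∑ i, α i) * (Fintype.card ι + (∑ i, α i + 1)).ascFactorial j := by
        have := Nat.succ_ascFactorial (Fintype.card ι + ∑ i, α i) j
        rw [Nat.ascFactorial_succ, ← this]
        rfl
      rw [e4]
      push_cast
      ring
    · rw [if_neg h]
      refine Finset.sum_eq_zero (fun i _ => ?_)
      rw [if_neg]
      intro h'
      exact h (add_right_cancel h')

end multi

end Pool.Agent.helper80.LSZ
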