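import Pool.Agent.helper80.LSZ.Wick

set_option linter.all false
set_option autoImplicit false

/-!
# The Wick formula for products of linear forms (MP_2dd521_co)
-/

namespace Pool.Agent.helper80.LSZ

open MeasureTheory Finset
open scoped Real ComplexConjugate

section

variable {S ι : Type*} [Fintype S] [DecidableEq S] [Fintype ι] [DecidableEq ι]

/-- number of preimages -/
def cnt (φ : S → ι) (i : ι) : ℕ := (Finset.univ.filter (fun s => φ s = i)).card

theorem cnt_eq (φ : S → ι) (i : ι) : Fintype.card {s // φ s = i} = cnt φ i :=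
  Fintype.card_subtype _

theorem sum_cnt (φ : S → ι) : ∑ i, cnt φ i = Fintype.card S := by
  unfold cnt
  rw [← Finset.card_univ (α := S)]
  exact (Finset.card_eq_sum_card_fiberwise (f := φ) (s := Finset.univ) (t := Finset.univ)
    (fun _ _ => Finset.mem_coe.2 (Finset.mem_univ _))).symm

theorem prod_cnt (φ : S → ι) (z : ι → ℂ) : ∏ s, z (φ s) = ∏ i, z i ^ cnt φ i := by
  unfold cnt
  rw [← Finset.prod_fiberwise' Finset.univ φ z]
  simp

theorem cnt_comp (φ : S → ι) (σ : Equiv.Perm S) : cnt (φ ∘ σ) = cnt φ := by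
  funext i
  rw [← cnt_eq, ← cnt_eq]
  exact Fintype.card_congr (σ.subtypeEquiv (fun s => Iff.rfl))

/-- number of permutations carrying one map to the other -/
theorem card_perm (φ ψ : S → ι) :
    (Finset.univ.filter (fun σ : Equiv.Perm S => ψ ∘ σ = φ)).card =
      if cnt φ = cnt ψ then ∏ i, (cnt φ i).factorial else 0 := by
  classical
  split_ifs with h
  · -- a permutation
    have e : ∀ i, Nonempty ({s // φ s = i} ≃ {s // ψ s = i}) := by
      intro i
      refine ⟨Fintype.equivOfCardEq ?_⟩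
      rw [cnt_eq, cnt_eq, h]
    set σ0 : Equiv.Perm S := (Equiv.sigmaFiberEquiv φ).symm.trans
      ((Equiv.sigmaCongrRight (fun i => (e i).some)).trans (Equiv.sigmaFiberEquiv ψ)) with hσ0
    have hσ : ψ ∘ σ0 = φ := by
      funext s
      show ψ (((e (φ s)).some ⟨s, rfl⟩ : {t // ψ t = φ s}) : S) = φ s
      exact ((e (φ s)).some ⟨s, rfl⟩).2
    have h1 : (Finset.univ.filter (fun σ : Equiv.Perm S => ψ ∘ σ = φ)).card =
        (Finset.univ.filter (fun σ : Equiv.Perm S => φ ∘ σ = φ)).card := by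
      refine Finset.card_bij (fun σ _ => σ0⁻¹ * σ) ?_ ?_ ?_
      · intro σ hσ'
        simp only [Finset.mem_filter, Finset.mem_univ, true_and] at hσ' ⊢
        funext s
        show φ (σ0⁻¹ (σ s)) = φ s
        have h3 : ψ (σ0 (σ0⁻¹ (σ s))) = φ (σ0⁻¹ (σ s)) := congrFun hσ _
        have h4 : ψ (σ s) = φ s := congrFun hσ' s
        rw [← h3]
        simpa using h4
      · intro σ _ τ _ h2
        exact mul_left_cancel h2
      · intro τ hτ
        simp only [Finset.mem_filter, Finset.mem_univ, true_and] at hτ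
        refine ⟨σ0 * τ, ?_, by simp⟩
        simp only [Finset.mem_filter, Finset.mem_univ, true_and]
        funext s
        show ψ (σ0 (τ s)) = φ s
        have h3 : ψ (σ0 (τ s)) = φ (τ s) := congrFun hσ _
        have h4 : φ (τ s) = φ s := congrFun hτ s
        rw [h3, h4]
    rw [h1, ← Fintype.card_subtype]
    have h2 := DomMulAct.stabilizer_card φ
    rw [h2]
    simp_rw [cnt_eq]
  · rw [Finset.card_eq_zero, Finset.filter_eq_empty_iff]
    intro σ _ hσ
    apply h
    rw [← hσ, cnt_comp]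

/-- product of linear forms -/
noncomputable def pf (L : S → ι → ℂ) (z : ι → ℂ) : ℂ := ∏ s, ∑ i, L s i * z i

theorem pf_mem (L : S → ι → ℂ) : pf L ∈ PolA ι :=
  prod_mem' _ (fun s _ => lin_mem (L s))

theorem conj_pf_mem (L : S → ι → ℂ) : (fun z => conj (pf L z)) ∈ PolA ι := by
  have : (fun z => conj (pf L z)) = fun z => ∏ s, conj (∑ i, L s i * z i) := by
    ext z
    simp [pf]
  rw [this]
  exact prod_mem' _ (fun s _ => conj_lin_mem (L s))

theorem pf_expand (L : S → ι → ℂ) (z : ι → ℂ) :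
    pf L z = ∑ φ : S → ι, (∏ s, L s (φ s)) * ∏ i, z i ^ cnt φ i := by
  unfold pf
  rw [Finset.prod_univ_sum, Fintype.piFinset_univ]
  refine Finset.sum_congr rfl (fun φ _ => ?_)
  rw [Finset.prod_mul_distrib, prod_cnt]

/-- Wick formula -/
theorem wick (L L' : S → ι → ℂ) (j : ℕ) :
    E (fun z => pf L z * conj (pf L' z) * nsq z ^ j) =
      Matrix.permanent (fun s t => ∑ i, L s i * conj (L' t i)) *
        ((Fintype.card ι + Fintype.card S).ascFactorial j : ℂ) := by
  classical
  have e : ∀ z : ι → ℂ, pf L z * conj (pf L' z) * nsq z ^ j =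
      ∑ φ : S → ι, ∑ ψ : S → ι, ((∏ s, L s (φ s)) * conj (∏ s, L' s (ψ s))) *
        (mono (cnt φ) (cnt ψ) z * nsq z ^ j) := by
    intro z
    rw [pf_expand, pf_expand, map_sum, Finset.sum_mul_sum, Finset.sum_mul]
    refine Finset.sum_congr rfl (fun φ _ => ?_)
    rw [Finset.sum_mul]
    refine Finset.sum_congr rfl (fun ψ _ => ?_)
    unfold mono
    simp only [map_mul, map_prod, map_pow]
    ring
  simp_rw [e]
  rw [E_sum _ (fun φ _ => sum_mem' _ (fun ψ _ => mul_mem' (const_mem _)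
    (mul_mem' (mono_mem _ _) (pow_mem' nsq_mem _))))]
  have e2 : ∀ φ : S → ι, E (fun z => ∑ ψ : S → ι,
      ((∏ s, L s (φ s)) * conj (∏ s, L' s (ψ s))) * (mono (cnt φ) (cnt ψ) z * nsq z ^ j)) =
      ∑ ψ : S → ι, ((∏ s, L s (φ s)) * conj (∏ s, L' s (ψ s))) *
        (((Finset.univ.filter (fun σ : Equiv.Perm S => ψ ∘ σ = φ)).card : ℂ) *
          ((Fintype.card ι + Fintype.card S).ascFactorial j : ℂ)) := by
    intro φ
    rw [E_sum _ (fun ψ _ => mul_mem' (const_mem _)
      (mul_mem' (mono_mem _ _) (pow_mem' nsq_mem _)))]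
    refine Finset.sum_congr rfl (fun ψ _ => ?_)
    rw [E_smul, E_mono_norm, card_perm]
    by_cases h : cnt φ = cnt ψ
    · rw [if_pos h, if_pos h, sum_cnt]
      push_cast
      rfl
    · rw [if_neg h, if_neg h]
      simp
  simp_rw [e2]
  -- exchange the sums
  have e3 : ∀ φ ψ : S → ι, (((Finset.univ.filter
      (fun σ : Equiv.Perm S => ψ ∘ σ = φ)).card : ℕ) : ℂ) =
      ∑ σ : Equiv.Perm S, if ψ ∘ σ = φ then (1 : ℂ) else 0 := by
    intro φ ψ
    rw [Finset.card_filter]
    push_cast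
    rfl
  simp_rw [e3]
  have e4 : ∑ φ : S → ι, ∑ ψ : S → ι, ((∏ s, L s (φ s)) * conj (∏ s, L' s (ψ s))) *
      ((∑ σ : Equiv.Perm S, if ψ ∘ σ = φ then (1 : ℂ) else 0) *
        ((Fintype.card ι + Fintype.card S).ascFactorial j : ℂ)) =
      (∑ σ : Equiv.Perm S, ∑ ψ : S → ι, (∏ s, L s (ψ (σ s))) * conj (∏ s, L' s (ψ s))) *
        ((Fintype.card ι + Fintype.card S).ascFactorial j : ℂ) := by
    calc _ = ∑ φ : S → ι, ∑ ψ : S → ι, ∑ σ : Equiv.Perm S, (if ψ ∘ σ = φ then
          (∏ s, L s (φ s)) * conj (∏ s, L' s (ψ s)) else 0) *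
          ((Fintype.card ι + Fintype.card S).ascFactorial j : ℂ) := by
          refine Finset.sum_congr rfl (fun φ _ => Finset.sum_congr rfl (fun ψ _ => ?_))
          rw [Finset.sum_mul, Finset.mul_sum]
          refine Finset.sum_congr rfl (fun σ _ => ?_)
          split_ifs <;> ring
      _ = (∑ φ : S → ι, ∑ ψ : S → ι, ∑ σ : Equiv.Perm S, (if ψ ∘ σ = φ then
          (∏ s, L s (φ s)) * conj (∏ s, L' s (ψ s)) else 0)) *
          ((Fintype.card ι + Fintype.card S).ascFactorial j : ℂ) := by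
          simp_rw [Finset.sum_mul]
      _ = _ := by
          congr 1
          rw [Finset.sum_comm]
          have e5 : ∀ ψ : S → ι, ∑ φ : S → ι, ∑ σ : Equiv.Perm S, (if ψ ∘ σ = φ then
              (∏ s, L s (φ s)) * conj (∏ s, L' s (ψ s)) else 0) =
              ∑ σ : Equiv.Perm S, (∏ s, L s (ψ (σ s))) * conj (∏ s, L' s (ψ s)) := by
            intro ψ
            rw [Finset.sum_comm]
            refine Finset.sum_congr rfl (fun σ _ => ?_)
            rw [Finset.sum_ite_eq]
            simp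
          simp_rw [e5]
          rw [Finset.sum_comm]
  rw [e4]
  congr 1
  unfold Matrix.permanent
  have e6 : ∀ σ : Equiv.Perm S,
      ∑ ψ : S → ι, (∏ s, L s (ψ (σ s))) * conj (∏ s, L' s (ψ s)) =
      ∏ s, ∑ i, L (σ⁻¹ s) i * conj (L' s i) := by
    intro σ
    rw [Finset.prod_univ_sum, Fintype.piFinset_univ]
    refine Finset.sum_congr rfl (fun ψ _ => ?_)
    rw [Finset.prod_mul_distrib, map_prod]
    congr 1
    rw [← Equiv.prod_comp σ (fun s => L (σ⁻¹ s) (ψ s))]
    simp
  simp_rw [e6]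
  exact Fintype.sum_equiv (Equiv.inv _) _ _ (fun σ => rfl)

end

end Pool.Agent.helper80.LSZ
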